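import Mathlib
import Pool.Agent.H532.LG.Many

/-!
Subexponential levels.
-/

namespace Pool.Agent.H532.HY

open Finset MeasureTheory Function ProbabilityTheory Filter Pool.Agent.H532.RM Pool.Agent.H532.LG
open scoped ENNReal Topology

/-- subexponential levels -/
def SubE (y : ℕ → ℕ) : Prop := ∀ c : ℝ, 0 < c → ∀ᶠ j : ℕ in atTop, (y j : ℝ) ≤ Real.exp (c * j)

/-- the working level -/
def WY (y : ℕ → ℕ) (j : ℕ) : ℕ := max (y j) (Wj j)

lemma WY_sub {y : ℕ → ℕ} (hy : SubE y) : SubE (WY y) := by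
  intro c hc
  filter_upwards [hy c hc, Wj_exp c hc] with j h1 h2
  unfold WY
  rw [Nat.cast_max]
  exact max_le h1 h2

lemma WY_tendsto (y : ℕ → ℕ) : Tendsto (WY y) atTop atTop :=
  tendsto_atTop_mono (fun _ => le_max_right _ _) Wj_tendsto

lemma V_WY_zero (y : ℕ → ℕ) : Tendsto (fun j => V (WY y j)) atTop (𝓝 0) :=
  V_tendsto_zero.comp (WY_tendsto y)

lemma rho_sub {W : ℕ → ℕ} (hW : SubE W) (hW2 : ∀ᶠ j : ℕ in atTop, 2 ≤ W j) {Z : ℕ → ℕ}
    (hZ : Tendsto (fun j : ℕ => V (Z j) * (j * Real.log 2)) atTop (𝓝 1)) :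
    Tendsto (fun j : ℕ => V (Z j) / V (W j)) atTop (𝓝 0) := by
  obtain ⟨c, _, hc, _, hV⟩ := V_two_sided
  rw [Metric.tendsto_atTop]
  intro ε hε
  have hl2 := Real.log_two_gt_d9
  have key : ∀ᶠ j : ℕ in atTop, dist (V (Z j) / V (W j)) 0 < ε := by
    filter_upwards [hW (ε * c / 8) (by positivity), hW2,
      hZ.eventually (gt_mem_nhds (show (1 : ℝ) < 2 by norm_num)), eventually_ge_atTop 1] with
      j h1 h2 h3 h4
    have hj0 : (0 : ℝ) < j := by exact_mod_cast h4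
    have hW0 : (0 : ℝ) < W j := by exact_mod_cast (by omega : 0 < W j)
    have hVW := V_pos (W j)
    have hVZ := V_pos (Z j)
    have hlW : Real.log (W j) ≤ ε * c / 8 * j := by
      rw [← Real.log_exp (ε * c / 8 * j)]
      exact Real.log_le_log hW0 h1
    have h5 := (hV (W j) h2).1
    have h6 : c ≤ V (W j) * (ε * c / 8 * j) := h5.trans (by gcongr)
    have h7 : 1 ≤ V (W j) * (ε / 8 * j) := by
      have : c * 1 ≤ c * (V (W j) * (ε / 8 * j)) := by linarith
      exact le_of_mul_le_mul_left this hc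
    have h8 : V (Z j) * j ≤ 3 := by nlinarith [mul_pos hVZ hj0]
    rw [Real.dist_0_eq_abs, abs_of_pos (by positivity), div_lt_iff₀ hVW]
    have h9 : V (Z j) * 1 ≤ V (Z j) * (V (W j) * (ε / 8 * j)) := by gcongr
    have h10 : V (Z j) * (V (W j) * (ε / 8 * j)) = (V (Z j) * j) * (V (W j) * ε / 8) := by ring
    have h11 : (V (Z j) * j) * (V (W j) * ε / 8) ≤ 3 * (V (W j) * ε / 8) := by gcongr
    have h12 : 0 < V (W j) * ε := by positivity
    nlinarith
  exact eventually_atTop.1 key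

lemma WY_ge_two (y : ℕ → ℕ) : ∀ᶠ j : ℕ in atTop, 2 ≤ WY y j :=
  (WY_tendsto y).eventually_ge_atTop 2

lemma W_le_Z {W Z : ℕ → ℕ} (h : Tendsto (fun j : ℕ => V (Z j) / V (W j)) atTop (𝓝 0)) :
    ∀ᶠ j : ℕ in atTop, W j ≤ Z j := by
  filter_upwards [h.eventually (gt_mem_nhds one_pos)] with j hj
  by_contra hcon
  have h1 := V_anti (not_le.1 hcon).le
  rw [div_lt_one (V_pos _)] at hj
  linarith

end Pool.Agent.H532.HY
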