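import Mathlib
import Pool.Agent.H532.RM.Facts

/-!
The interval sieve at the scale `U ≍ ζ ^ 2`: the minimum is at most `e ^ γ / 2 + o(1)`.
-/

namespace Pool.Agent.H532.HY

open Finset Filter Pool.Agent.H532.RM
open scoped Topology

lemma WW_two : Pool.Agent.R529.BU.WW 2 = 1 := by
  unfold Pool.Agent.R529.BU.WW
  exact Pool.Agent.R529.BU.om_one_two 2 (by norm_num) le_rfl

theorem rm_sq (δ c : ℝ) (hδ : 0 < δ) (hc : 0 < c) : ∀ᶠ ζ : ℕ in atTop, ∀ U : ℕ,
    c * (ζ : ℝ) ^ 2 ≤ U → c * (U : ℝ) ≤ (ζ : ℝ) ^ 2 →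
    rm U ζ ≤ 1 / (2 * Real.exp (-Real.eulerMascheroniConstant)) + δ := by
  obtain ⟨g, hg⟩ : ∃ g : ℝ, g = Real.exp (-Real.eulerMascheroniConstant) := ⟨_, rfl⟩
  rw [← hg]
  have hg0 : 0 < g := by rw [hg]; exact Real.exp_pos _
  -- the choice of `ε`
  obtain ⟨ε, hε0, hε1, hεg, hε⟩ : ∃ ε : ℝ, 0 < ε ∧ ε < 1 ∧ ε < g ∧
      (1 + 2 * ε) / ((2 - ε) * (g - ε)) ≤ 1 / (2 * g) + δ := by
    have hcont : Tendsto (fun ε : ℝ => (1 + 2 * ε) / ((2 - ε) * (g - ε))) (𝓝 0)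
        (𝓝 ((1 + 2 * 0) / ((2 - 0) * (g - 0)))) := by
      have h1 : ((2 : ℝ) - 0) * (g - 0) ≠ 0 := by simp [hg0.ne']
      have : ContinuousAt (fun ε : ℝ => (1 + 2 * ε) / ((2 - ε) * (g - ε))) 0 := by
        apply ContinuousAt.div
        · fun_prop
        · fun_prop
        · exact h1
      exact this
    have e : ((1 : ℝ) + 2 * 0) / ((2 - 0) * (g - 0)) = 1 / (2 * g) := by norm_num
    rw [e] at hcont
    have h2 := hcont.eventually (gt_mem_nhds (show 1 / (2 * g) < 1 / (2 * g) + δ by linarith))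
    have h3 : ∀ᶠ ε : ℝ in 𝓝[>] 0, (1 + 2 * ε) / ((2 - ε) * (g - ε)) < 1 / (2 * g) + δ :=
      h2.filter_mono nhdsWithin_le_nhds
    have h4 : ∀ᶠ ε : ℝ in 𝓝[>] 0, ε < 1 := (gt_mem_nhds one_pos).filter_mono nhdsWithin_le_nhds
    have h5 : ∀ᶠ ε : ℝ in 𝓝[>] 0, ε < g := (gt_mem_nhds hg0).filter_mono nhdsWithin_le_nhds
    have h6 : ∀ᶠ ε : ℝ in 𝓝[>] 0, 0 < ε := eventually_mem_nhdsWithin
    obtain ⟨ε, h⟩ := ((h3.and h4).and (h5.and h6)).exists
    exact ⟨ε, h.2.2, h.1.2, h.2.1, h.1.1.le⟩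
  -- continuity of `WW` at `2`
  obtain ⟨τ, hτ0, hτ⟩ : ∃ τ : ℝ, 0 < τ ∧ ∀ u : ℝ, |u - 2| < τ →
      |Pool.Agent.R529.BU.WW u - 1| < ε := by
    have h0 : ContinuousAt Pool.Agent.R529.BU.WW 2 := Pool.Agent.R529.BU.WW_cont.continuousAt
    obtain ⟨τ, h2, h3⟩ := Metric.continuousAt_iff.1 h0 ε hε0
    refine ⟨τ, h2, fun u hu => ?_⟩
    have h4 := h3 (show dist u 2 < τ by rwa [Real.dist_eq])
    rwa [Real.dist_eq, WW_two] at h4
  obtain ⟨z0, hz0⟩ := Pool.Agent.R529.BU.QA_all 3 (by norm_num) (1 / 2) ε (by norm_num) hε0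
  have hlt : Tendsto (fun ζ : ℕ => Real.log (ζ : ℝ)) atTop atTop :=
    Real.tendsto_log_atTop.comp tendsto_natCast_atTop_atTop
  have hVl := V_log
  rw [← hg] at hVl
  filter_upwards [(tendsto_natCast_atTop_atTop (R := ℝ)).eventually_ge_atTop (max z0 2),
    hlt.eventually_ge_atTop (|Real.log c| / min τ ε + 2 * |Real.log c| + 1),
    (tendsto_natCast_atTop_atTop (R := ℝ)).eventually_ge_atTop (1 / c + 2),
    hVl.eventually (lt_mem_nhds (show g - ε < g by linarith))] with ζ h1 h2 h3 h4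
  intro U hU1 hU2
  have hζz : z0 ≤ ζ := (le_max_left _ _).trans h1
  have hζ2 : (2 : ℝ) ≤ ζ := (le_max_right _ _).trans h1
  have hζ0 : (0 : ℝ) < ζ := by linarith
  have hU0 : (0 : ℝ) < U := lt_of_lt_of_le (by positivity) hU1
  have hlog : 0 < Real.log ζ := Real.log_pos (by linarith)
  have habs := abs_nonneg (Real.log c)
  have hm0 : 0 < min τ ε := lt_min hτ0 hε0
  have hdiv : 0 ≤ |Real.log c| / min τ ε := by positivity
  -- `log U` is close to `2 log ζ`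
  have hlU1 : Real.log c + 2 * Real.log ζ ≤ Real.log U := by
    have := Real.log_le_log (by positivity) hU1
    rwa [Real.log_mul hc.ne' (by positivity), Real.log_pow, Nat.cast_ofNat] at this
  have hlU2 : Real.log c + Real.log U ≤ 2 * Real.log ζ := by
    have := Real.log_le_log (by positivity) hU2
    rwa [Real.log_mul hc.ne' hU0.ne', Real.log_pow, Nat.cast_ofNat] at this
  have hla1 := neg_abs_le (Real.log c)
  have hla2 := le_abs_self (Real.log c)
  have hrat : |Real.log U / Real.log ζ - 2| < min τ ε := by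
    have e : Real.log U / Real.log ζ - 2 = (Real.log U - 2 * Real.log ζ) / Real.log ζ := by
      field_simp
    rw [e, abs_div, abs_of_pos hlog, div_lt_iff₀ hlog]
    have h5 : |Real.log U - 2 * Real.log ζ| ≤ |Real.log c| := by
      rw [abs_le]; constructor <;> linarith
    have h6 : |Real.log c| / min τ ε < Real.log ζ := by linarith
    rw [div_lt_iff₀ hm0] at h6
    linarith
  have hWW := hτ _ (lt_of_lt_of_le hrat (min_le_left _ _))
  have hrε : |Real.log U / Real.log ζ - 2| < ε := lt_of_lt_of_le hrat (min_le_right _ _)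
  have hlogU : (2 - ε) * Real.log ζ ≤ Real.log U := by
    have h7 := (abs_lt.1 hrε).1
    have h8 : 2 - ε ≤ Real.log U / Real.log ζ := by linarith
    rwa [le_div_iff₀ hlog] at h8
  have hlogU0 : 0 < Real.log U := lt_of_lt_of_le (mul_pos (by linarith) hlog) hlogU
  have hQ := hz0 ζ hζz U (by
    -- ζ ^ (3/2) ≤ U
    have h9 : (ζ : ℝ) ^ ((1 : ℝ) + 1 / 2) = Real.exp ((1 + 1 / 2) * Real.log ζ) := by
      rw [Real.rpow_def_of_pos hζ0, mul_comm]
    rw [h9, ← Real.exp_log hU0]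
    refine Real.exp_le_exp.2 ?_
    linarith) (by
    have h9 : (ζ : ℝ) ^ (((3 : ℕ) : ℝ)) = Real.exp (3 * Real.log ζ) := by
      rw [Real.rpow_def_of_pos hζ0, mul_comm]; norm_num
    rw [h9, ← Real.exp_log hU0]
    refine Real.exp_le_exp.2 ?_
    linarith)
  have hT : (T1 (fun _ => 0) ζ 0 U : ℝ) = ((Pool.Agent.R529.BU.RR (U : ℝ) ζ).card : ℝ) := by
    have := T1_eq_RR ζ (U : ℝ)
    rwa [Nat.floor_natCast] at this
  have hs : (smin U ζ : ℝ) ≤ T1 (fun _ => 0) ζ 0 U := by exact_mod_cast smin_le 0 U ζ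
  have hcard : (T1 (fun _ => 0) ζ 0 U : ℝ) * Real.log U ≤ U * (1 + 2 * ε) := by
    rw [hT]
    have h10 := (abs_le.1 hQ).2
    have h11 := (abs_lt.1 hWW).2
    nlinarith
  have hVζ := V_pos ζ
  have hgε : 0 < g - ε := by linarith
  have h2ε : 0 < 2 - ε := by linarith
  refine le_trans ?_ hε
  unfold rm
  rw [div_le_div_iff₀ (by positivity) (by positivity)]
  have hkey : (2 - ε) * (g - ε) ≤ Real.log U * V ζ := by
    calc (2 - ε) * (g - ε) ≤ (2 - ε) * (V ζ * Real.log ζ) := by gcongr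
      _ = ((2 - ε) * Real.log ζ) * V ζ := by ring
      _ ≤ Real.log U * V ζ := by gcongr
  calc (smin U ζ : ℝ) * ((2 - ε) * (g - ε)) ≤
      T1 (fun _ => 0) ζ 0 U * (Real.log U * V ζ) := by gcongr
    _ = (T1 (fun _ => 0) ζ 0 U * Real.log U) * V ζ := by ring
    _ ≤ (U * (1 + 2 * ε)) * V ζ := by gcongr
    _ = (1 + 2 * ε) * (U * V ζ) := by ring

end Pool.Agent.H532.HY
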