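import Mathlib
import Pool.Agent.H532.HY.Basic

/-!
The weights of the windows, deterministic part.
-/

namespace Pool.Agent.H532.HY

open Finset MeasureTheory Function ProbabilityTheory Filter Pool.Agent.H532.RM Pool.Agent.H532.LG
open scoped ENNReal Topology

lemma sum_T1_le (c : ℕ → ℕ) (y A B U : ℕ) :
    ∑ m ∈ Ico A B, T1 c y m U ≤ U * T1 c y A (B - A + U) := by
  classical
  set T := TT {0} c (primesLe y) A (B - A + U) with hT
  calc ∑ m ∈ Ico A B, T1 c y m U ≤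
      ∑ m ∈ Ico A B, ∑ n ∈ T, (if m < n ∧ n ≤ m + U then 1 else 0) := by
        refine sum_le_sum fun m hm => ?_
        rw [← card_filter]
        refine card_le_card fun n hn => ?_
        obtain ⟨h1, h2⟩ := mem_T1.1 hn
        have hm' := mem_Ico.1 hm
        refine mem_filter.2 ⟨mem_T1.2 ⟨⟨by omega, by omega⟩, h2⟩, h1⟩
    _ = ∑ n ∈ T, ∑ m ∈ Ico A B, (if m < n ∧ n ≤ m + U then 1 else 0) := sum_comm
    _ ≤ ∑ n ∈ T, U := by
        refine sum_le_sum fun n _ => ?_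
        rw [← card_filter]
        calc ((Ico A B).filter (fun m => m < n ∧ n ≤ m + U)).card ≤ (Ico (n - U) n).card := by
              refine card_le_card fun m hm => ?_
              obtain ⟨_, h1, h2⟩ := mem_filter.1 hm
              rw [mem_Ico]; omega
          _ ≤ U := by rw [Nat.card_Ico]; omega
    _ = U * T1 c y A (B - A + U) := by
        rw [sum_const, smul_eq_mul, mul_comm]
        rfl

/-- the windows inside a dyadic block -/
def Bd (j U : ℕ) : Finset ℕ := Ico (2 ^ j) (2 ^ (j + 1) - U)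

/-- the sum of the weights -/
noncomputable def Fw (c : ℕ → ℕ) (y : ℕ) (ρ : ℝ) (j U : ℕ) : ℝ :=
  ∑ m ∈ Bd j U, Real.exp (-(ρ * T1 c y m U))

lemma card_Bd {j U : ℕ} (h : j ^ 3 ≤ 2 ^ (j - 1)) (hU : U ≤ j ^ 3) (hj : 1 ≤ j) :
    2 ^ (j - 1) ≤ (Bd j U).card ∧ (Bd j U).card ≤ 2 ^ j := by
  unfold Bd
  rw [Nat.card_Ico]
  have h1 : 2 ^ j = 2 * 2 ^ (j - 1) := by
    rw [← pow_succ']; congr 1; omega
  have h2 : 2 ^ (j + 1) = 4 * 2 ^ (j - 1) := by
    rw [pow_succ, h1]; ring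
  omega

/-- many windows have few elements -/
theorem half_win (y : ℕ → ℕ) (hyt : Tendsto y atTop atTop) (hy : SubE y) :
    ∀ᶠ j : ℕ in atTop, ∀ (c : ℕ → ℕ) (U : ℕ), U ≤ j ^ 3 → 1 ≤ U →
      ((Bd j U).card : ℝ) / 2 ≤ (((Bd j U).filter (fun m =>
        (T1 c (y j) m U : ℝ) ≤ 5 * (U * V (y j)))).card : ℝ) := by
  obtain ⟨K, hK⟩ := rp_to_one (1 / 4) (by norm_num)
  have hl2 : 0 < Real.log 2 := Real.log_pos (by norm_num)
  filter_upwards [hyt.eventually hK, hy (Real.log 2 / (K + 1)) (by positivity), pow3_le,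
    eventually_ge_atTop 1, hyt.eventually_ge_atTop 1] with j h1 h2 h3 h4 h5
  intro c U hU hU1
  have hVy := V_pos (y j)
  obtain ⟨hc1, hc2⟩ := card_Bd h3 hU h4
  have h6 : (y j) ^ K ≤ 2 ^ j := by
    have h7 : ((y j : ℕ) : ℝ) ^ K ≤ 2 ^ j := by
      calc ((y j : ℕ) : ℝ) ^ K ≤ (Real.exp (Real.log 2 / (K + 1) * j)) ^ K := by gcongr
        _ = Real.exp (K * (Real.log 2 / (K + 1) * j)) := by rw [← Real.exp_nat_mul]
        _ ≤ Real.exp (j * Real.log 2) := by
            refine Real.exp_le_exp.2 ?_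
            calc (K : ℝ) * (Real.log 2 / (K + 1) * j) = (K / (K + 1)) * (j * Real.log 2) := by ring
              _ ≤ 1 * (j * Real.log 2) := by
                  gcongr
                  rw [div_le_one (by positivity)]; linarith
              _ = _ := one_mul _
        _ = 2 ^ j := by rw [Real.exp_nat_mul, Real.exp_log (by norm_num)]
    exact_mod_cast h7
  have h8 := (abs_le.1 (h1 (2 ^ j) h6).1).2
  have h9 : (T1 c (y j) (2 ^ j) (2 ^ j) : ℝ) ≤ 5 / 4 * (2 ^ j * V (y j)) := by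
    have e1 : (T1 c (y j) (2 ^ j) (2 ^ j) : ℝ) ≤ smax (2 ^ j) (y j) := by
      exact_mod_cast T1_le_smax c (y j) (2 ^ j) (2 ^ j)
    have e2 : (smax (2 ^ j) (y j) : ℝ) = rp (2 ^ j) (y j) * (2 ^ j * V (y j)) := by
      unfold rp
      push_cast
      field_simp
    rw [e2] at e1
    refine e1.trans ?_
    have : rp (2 ^ j) (y j) ≤ 5 / 4 := by linarith
    gcongr
  have hsum : ∑ m ∈ Bd j U, (T1 c (y j) m U : ℝ) ≤ U * (5 / 4 * (2 ^ j * V (y j))) := by
    have e1 := sum_T1_le c (y j) (2 ^ j) (2 ^ (j + 1) - U) U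
    have e2 : 2 ^ (j + 1) - U - 2 ^ j + U = 2 ^ j := by
      have g1 : 2 ^ j = 2 * 2 ^ (j - 1) := by
        rw [← pow_succ']; congr 1; omega
      have g2 : 2 ^ (j + 1) = 4 * 2 ^ (j - 1) := by
        rw [pow_succ, g1]; ring
      omega
    rw [e2] at e1
    have e3 : ((∑ m ∈ Bd j U, T1 c (y j) m U : ℕ) : ℝ) ≤ ((U * T1 c (y j) (2 ^ j) (2 ^ j) : ℕ) : ℝ) :=
      by exact_mod_cast e1
    push_cast at e3
    exact e3.trans (by gcongr)
  have h2j : (2 : ℝ) ^ j ≤ 2 * (Bd j U).card := by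
    have g1 : 2 ^ j = 2 * 2 ^ (j - 1) := by
      rw [← pow_succ']; congr 1; omega
    have : 2 ^ j ≤ 2 * (Bd j U).card := by omega
    exact_mod_cast this
  set G := (Bd j U).filter (fun m => (T1 c (y j) m U : ℝ) ≤ 5 * (U * V (y j))) with hG
  have hsplit : (G.card : ℝ) + ((Bd j U).filter (fun m =>
      ¬ (T1 c (y j) m U : ℝ) ≤ 5 * (U * V (y j)))).card = (Bd j U).card := by
    exact_mod_cast card_filter_add_card_filter_not (s := Bd j U)
      (fun m => (T1 c (y j) m U : ℝ) ≤ 5 * (U * V (y j)))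
  set G' := (Bd j U).filter (fun m => ¬ (T1 c (y j) m U : ℝ) ≤ 5 * (U * V (y j))) with hG'
  have hG'1 : (G'.card : ℝ) * (5 * (U * V (y j))) ≤ U * (5 / 4 * (2 ^ j * V (y j))) := by
    calc (G'.card : ℝ) * (5 * (U * V (y j))) = ∑ m ∈ G', 5 * (U * V (y j)) := by
          rw [sum_const, nsmul_eq_mul]
      _ ≤ ∑ m ∈ G', (T1 c (y j) m U : ℝ) :=
          sum_le_sum fun m hm => (not_le.1 (mem_filter.1 hm).2).le
      _ ≤ ∑ m ∈ Bd j U, (T1 c (y j) m U : ℝ) :=
          sum_le_sum_of_subset_of_nonneg (filter_subset _ _) fun _ _ _ => Nat.cast_nonneg _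
      _ ≤ _ := hsum
  have hU0 : (0 : ℝ) < U := by exact_mod_cast hU1
  have hUV : 0 < U * V (y j) := by positivity
  have h10 : (G'.card : ℝ) ≤ (Bd j U).card / 2 := by
    have h11 : (G'.card : ℝ) * (5 * (U * V (y j))) ≤ ((Bd j U).card / 2) * (5 * (U * V (y j))) := by
      calc (G'.card : ℝ) * (5 * (U * V (y j))) ≤ U * (5 / 4 * (2 ^ j * V (y j))) := hG'1
        _ ≤ U * (5 / 4 * ((2 * (Bd j U).card) * V (y j))) := by gcongr
        _ = _ := by ring
    exact le_of_mul_le_mul_right h11 (by positivity)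
  linarith

theorem Fw_ge (y : ℕ → ℕ) (hyt : Tendsto y atTop atTop) (hy : SubE y) :
    ∀ᶠ j : ℕ in atTop, ∀ (c : ℕ → ℕ) (U : ℕ) (ρ : ℝ), U ≤ j ^ 3 → 1 ≤ U → 0 ≤ ρ →
      ρ * (U * V (y j)) ≤ 2 * ((U : ℝ) / j) →
      ((Bd j U).card : ℝ) / 2 * Real.exp (-(10 * ((U : ℝ) / j))) ≤ Fw c (y j) ρ j U := by
  filter_upwards [half_win y hyt hy] with j hj
  intro c U ρ hU hU1 hρ0 hρ
  have h1 := hj c U hU hU1
  set G := (Bd j U).filter (fun m => (T1 c (y j) m U : ℝ) ≤ 5 * (U * V (y j))) with hG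
  calc ((Bd j U).card : ℝ) / 2 * Real.exp (-(10 * ((U : ℝ) / j))) ≤
      G.card * Real.exp (-(10 * ((U : ℝ) / j))) := by gcongr
    _ = ∑ m ∈ G, Real.exp (-(10 * ((U : ℝ) / j))) := by rw [sum_const, nsmul_eq_mul]
    _ ≤ ∑ m ∈ G, Real.exp (-(ρ * T1 c (y j) m U)) := by
        refine sum_le_sum fun m hm => Real.exp_le_exp.2 (neg_le_neg ?_)
        have h2 := (mem_filter.1 hm).2
        calc ρ * (T1 c (y j) m U : ℝ) ≤ ρ * (5 * (U * V (y j))) := by gcongr
          _ = 5 * (ρ * (U * V (y j))) := by ring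
          _ ≤ 10 * ((U : ℝ) / j) := by linarith
    _ ≤ Fw c (y j) ρ j U :=
        sum_le_sum_of_subset_of_nonneg (filter_subset _ _) fun _ _ _ => (Real.exp_pos _).le

theorem slack (y : ℕ → ℕ) (hyt : Tendsto y atTop atTop) (hy : SubE y) (δ : ℝ) (hδ : 0 < δ) :
    ∀ᶠ j : ℕ in atTop, ∀ (c : ℕ → ℕ) (U : ℕ) (ρ θ : ℝ), U ≤ j ^ 3 →
      Real.log j ^ 2 ≤ (U : ℝ) / j → 0 ≤ ρ → ρ * (U * V (y j)) ≤ 2 * ((U : ℝ) / j) →
      1 - δ / 48 ≤ θ → 23 / 24 ≤ θ →
      (∑ m ∈ Bd j U, Real.exp (-(θ * (ρ * T1 c (y j) m U)))) ≤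
        Real.exp (δ * ((U : ℝ) / j)) * Fw c (y j) ρ j U := by
  classical
  have hlogt : Tendsto (fun j : ℕ => Real.log (j : ℝ) ^ 2) atTop atTop :=
    (tendsto_pow_atTop (by norm_num)).comp
      (Real.tendsto_log_atTop.comp tendsto_natCast_atTop_atTop)
  filter_upwards [Fw_ge y hyt hy, hlogt.eventually_ge_atTop (4 / δ + 1),
    eventually_ge_atTop 1] with j h1 h2 h3
  intro c U ρ θ hU hU2 hρ0 hρ hθ1 hθ2
  obtain ⟨w, hw⟩ : ∃ w : ℝ, w = (U : ℝ) / j := ⟨_, rfl⟩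
  have hj0 : (0 : ℝ) < j := by exact_mod_cast h3
  have hδ4 : 0 < 4 / δ := by positivity
  have hw1 : 4 / δ + 1 ≤ w := by rw [hw]; linarith
  have hw0 : 0 < w := by linarith
  have hδw : 4 ≤ δ * w := by
    have : 4 / δ ≤ w := by linarith
    rw [div_le_iff₀ hδ] at this; linarith
  have hUpos : 1 ≤ U := by
    by_contra hcon
    have : U = 0 := by omega
    rw [this, Nat.cast_zero, zero_div] at hw
    linarith
  have hF := h1 c U ρ hU hUpos hρ0 hρ
  rw [← hw] at hF hρ ⊢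
  set N : ℝ := ((Bd j U).card : ℝ) with hN
  have hN0 : 0 ≤ N := Nat.cast_nonneg _
  have hsp : ∀ m ∈ Bd j U, Real.exp (-(θ * (ρ * T1 c (y j) m U))) ≤
      Real.exp (δ / 2 * w) * Real.exp (-(ρ * T1 c (y j) m U)) + Real.exp (-(23 * w)) := by
    intro m _
    obtain ⟨s, hs⟩ : ∃ s : ℝ, s = ρ * T1 c (y j) m U := ⟨_, rfl⟩
    rw [← hs]
    have hs0 : 0 ≤ s := by rw [hs]; positivity
    rcases le_or_gt s (24 * w) with h | h
    · have e1 : Real.exp (-(θ * s)) ≤ Real.exp (δ / 2 * w) * Real.exp (-s) := by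
        rw [← Real.exp_add]
        refine Real.exp_le_exp.2 ?_
        have : (1 - θ) * s ≤ δ / 48 * (24 * w) := by
          rcases le_or_gt θ 1 with h' | h'
          · have h4 : 0 ≤ 1 - θ := by linarith
            have h5 : 1 - θ ≤ δ / 48 := by linarith
            gcongr
          · have h4 : (1 - θ) * s ≤ 0 := mul_nonpos_of_nonpos_of_nonneg (by linarith) hs0
            have h5 : 0 ≤ δ / 48 * (24 * w) := by positivity
            linarith
        nlinarith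
      have := Real.exp_pos (-(23 * w))
      linarith
    · have e1 : Real.exp (-(θ * s)) ≤ Real.exp (-(23 * w)) := by
        refine Real.exp_le_exp.2 ?_
        nlinarith
      have := mul_pos (Real.exp_pos (δ / 2 * w)) (Real.exp_pos (-s))
      linarith
  have hsum : (∑ m ∈ Bd j U, Real.exp (-(θ * (ρ * T1 c (y j) m U)))) ≤
      Real.exp (δ / 2 * w) * Fw c (y j) ρ j U + N * Real.exp (-(23 * w)) := by
    refine (sum_le_sum hsp).trans (le_of_eq ?_)
    rw [sum_add_distrib, ← mul_sum, sum_const, nsmul_eq_mul]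
    rfl
  refine hsum.trans ?_
  have hF0 : 0 ≤ Fw c (y j) ρ j U := sum_nonneg fun _ _ => (Real.exp_pos _).le
  have h4 : N * Real.exp (-(23 * w)) ≤ 2 * Fw c (y j) ρ j U := by
    have e1 : Real.exp (-(23 * w)) ≤ Real.exp (-(10 * w)) := Real.exp_le_exp.2 (by linarith)
    calc N * Real.exp (-(23 * w)) ≤ N * Real.exp (-(10 * w)) := by gcongr
      _ = 2 * (N / 2 * Real.exp (-(10 * w))) := by ring
      _ ≤ 2 * Fw c (y j) ρ j U := by linarith
  have h5 : Real.exp (δ / 2 * w) + 2 ≤ Real.exp (δ * w) := by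
    have e1 : Real.exp (δ * w) = Real.exp (δ / 2 * w) * Real.exp (δ / 2 * w) := by
      rw [← Real.exp_add]; congr 1; ring
    have e2 : 3 ≤ Real.exp (δ / 2 * w) := by
      have := Real.add_one_le_exp (δ / 2 * w)
      nlinarith
    rw [e1]; nlinarith
  calc Real.exp (δ / 2 * w) * Fw c (y j) ρ j U + N * Real.exp (-(23 * w)) ≤
      Real.exp (δ / 2 * w) * Fw c (y j) ρ j U + 2 * Fw c (y j) ρ j U := by linarith
    _ = (Real.exp (δ / 2 * w) + 2) * Fw c (y j) ρ j U := by ring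
    _ ≤ Real.exp (δ * w) * Fw c (y j) ρ j U := by gcongr

end Pool.Agent.H532.HY
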