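import Mathlib
import Pool.Agent.H532.HY.Slack
import Pool.Agent.H532.HY.Conc

/-!
The number of empty windows in the hybrid sieve: lower bound by the sum of the weights.
-/

namespace Pool.Agent.H532.HY

open Finset MeasureTheory Function ProbabilityTheory Filter Pool.Agent.H532.RM Pool.Agent.H532.LG
open scoped ENNReal Topology

lemma sep_sub' (G : Finset ℕ) (U : ℕ) : ∃ G' ⊆ G,
    (G.card : ℝ) ≤ (U + 1) * G'.card ∧ Sep U G' := by
  obtain ⟨G', h1, h2, h3, _⟩ := sep_sub G U 0 1 one_pos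
  refine ⟨G', h1, h2, ?_⟩
  have e : G'.image (fun t => 0 + 1 * t) = G' := by
    ext t
    simp
  rwa [e] at h3

/-- a level set with large total weight -/
lemma level_set (S : Finset ℕ) (P : ℕ → ℕ → Prop) (s : ℕ → ℝ) (hs : ∀ m ∈ S, 0 ≤ s m)
    (hS : ∀ m ∈ S, P 2 m ∨ P 3 m) (η w : ℝ) (hη : 0 < η) (hw : 0 < w) (I : ℕ)
    (hI : 24 ≤ η * I) (F : ℝ) (hF : F = ∑ m ∈ S, Real.exp (-(s m)))
    (hrest : (S.card : ℝ) * Real.exp (-(24 * w)) ≤ F / 2) (hF0 : 0 < F) :
    ∃ k : ℕ, 2 ≤ k ∧ k < 4 ∧ ∃ i ≤ I, ∃ L ⊆ S, (∀ m ∈ L, P k m) ∧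
      (∀ m ∈ L, s m ≤ (i + 1) * (η * w)) ∧
      F / (4 * (I + 1)) ≤ L.card * Real.exp (-(i * (η * w))) := by
  classical
  have hηw : 0 < η * w := by positivity
  set L : ℕ → ℕ → Finset ℕ := fun k i => S.filter (fun m => P k m ∧ ⌊s m / (η * w)⌋₊ = i) with hL
  by_contra hcon
  push Not at hcon
  have h1 : ∀ k : ℕ, 2 ≤ k → k < 4 → ∀ i ≤ I,
      ((L k i).card : ℝ) * Real.exp (-(i * (η * w))) < F / (4 * (I + 1)) := by
    intro k hk1 hk2 i hi
    refine hcon k hk1 hk2 i hi (L k i) (filter_subset _ _) (fun m hm => (mem_filter.1 hm).2.1)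
      fun m hm => ?_
    obtain ⟨_, _, h3⟩ := mem_filter.1 hm
    have h4 := Nat.lt_floor_add_one (s m / (η * w))
    rw [h3, div_lt_iff₀ hηw] at h4
    exact h4.le
  have h2 : F ≤ (∑ i ∈ range (I + 1), ((L 2 i).card : ℝ) * Real.exp (-(i * (η * w)))) +
      (∑ i ∈ range (I + 1), ((L 3 i).card : ℝ) * Real.exp (-(i * (η * w)))) +
      (S.card : ℝ) * Real.exp (-(24 * w)) := by
    have h3 : ∀ m ∈ S, Real.exp (-(s m)) ≤
        (∑ i ∈ range (I + 1), (if m ∈ L 2 i then Real.exp (-(i * (η * w))) else 0)) +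
        (∑ i ∈ range (I + 1), (if m ∈ L 3 i then Real.exp (-(i * (η * w))) else 0)) +
        Real.exp (-(24 * w)) := by
      intro m hm
      have hsm := hs m hm
      have hfl : (⌊s m / (η * w)⌋₊ : ℝ) ≤ s m / (η * w) := Nat.floor_le (by positivity)
      rw [le_div_iff₀ hηw] at hfl
      have hn2 : 0 ≤ ∑ i ∈ range (I + 1), (if m ∈ L 2 i then Real.exp (-(i * (η * w))) else 0) :=
        sum_nonneg fun i _ => by split_ifs <;> positivity
      have hn3 : 0 ≤ ∑ i ∈ range (I + 1), (if m ∈ L 3 i then Real.exp (-(i * (η * w))) else 0) :=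
        sum_nonneg fun i _ => by split_ifs <;> positivity
      have hn4 := Real.exp_pos (-(24 * w))
      rcases le_or_gt ⌊s m / (η * w)⌋₊ I with h | h
      · have e1 : Real.exp (-(s m)) ≤ Real.exp (-((⌊s m / (η * w)⌋₊ : ℝ) * (η * w))) :=
          Real.exp_le_exp.2 (by linarith)
        have key : ∀ k : ℕ, P k m → Real.exp (-((⌊s m / (η * w)⌋₊ : ℝ) * (η * w))) ≤
            ∑ i ∈ range (I + 1), (if m ∈ L k i then Real.exp (-(i * (η * w))) else 0) := by
          intro k hk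
          have hmem : m ∈ L k ⌊s m / (η * w)⌋₊ := mem_filter.2 ⟨hm, hk, rfl⟩
          have := single_le_sum (f := fun i : ℕ => if m ∈ L k i then
            Real.exp (-((i : ℝ) * (η * w))) else 0)
            (fun i _ => by beta_reduce; split_ifs <;> positivity)
            (mem_range.2 (by omega : ⌊s m / (η * w)⌋₊ < I + 1))
          simp only [hmem, if_true] at this
          exact this
        rcases hS m hm with hk | hk
        · have := key 2 hk
          linarith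
        · have := key 3 hk
          linarith
      · have e1 : (I : ℝ) ≤ s m / (η * w) := by
          have h5 : (I : ℝ) ≤ ⌊s m / (η * w)⌋₊ := by exact_mod_cast h.le
          refine h5.trans ?_
          rw [le_div_iff₀ hηw]; exact hfl
        rw [le_div_iff₀ hηw] at e1
        have e2 : 24 * w ≤ s m := by
          calc 24 * w ≤ (η * I) * w := by gcongr
            _ = I * (η * w) := by ring
            _ ≤ s m := e1
        have e3 : Real.exp (-(s m)) ≤ Real.exp (-(24 * w)) := Real.exp_le_exp.2 (by linarith)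
        linarith
    rw [hF]
    refine (sum_le_sum h3).trans (le_of_eq ?_)
    rw [sum_add_distrib, sum_add_distrib, sum_const, nsmul_eq_mul]
    congr 1
    congr 1
    · rw [sum_comm]
      refine sum_congr rfl fun i _ => ?_
      rw [← sum_filter, sum_const, nsmul_eq_mul]
      congr 2
      congr 1
      ext m
      simp only [hL, mem_filter]
      tauto
    · rw [sum_comm]
      refine sum_congr rfl fun i _ => ?_
      rw [← sum_filter, sum_const, nsmul_eq_mul]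
      congr 2
      congr 1
      ext m
      simp only [hL, mem_filter]
      tauto
  have h4 : ∀ k : ℕ, 2 ≤ k → k < 4 →
      ∑ i ∈ range (I + 1), ((L k i).card : ℝ) * Real.exp (-(i * (η * w))) < F / 4 := by
    intro k hk1 hk2
    calc ∑ i ∈ range (I + 1), ((L k i).card : ℝ) * Real.exp (-(i * (η * w))) <
        ∑ i ∈ range (I + 1), F / (4 * (I + 1)) :=
          sum_lt_sum_of_nonempty ⟨0, by simp⟩ fun i hi =>
            h1 k hk1 hk2 i (by have := mem_range.1 hi; omega)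
      _ = F / 4 := by
          rw [sum_const, card_range, nsmul_eq_mul]
          push_cast
          field_simp
  have h5 := h4 2 le_rfl (by norm_num)
  have h6 := h4 3 (by norm_num) (by norm_num)
  linarith

lemma sep_zone {U j : ℕ} {M : Finset ℕ} (hU : 1 ≤ U) (hsep : Sep U M)
    (hM : ∀ m ∈ M, 2 ^ j ≤ m ∧ m < 2 ^ (j + 1)) :
    M.card ≤ (M.filter (fun m => m ∈ Bd j U)).card + 1 := by
  classical
  have h1 : (M.filter (fun m => m ∉ Bd j U)).card ≤ 1 := by
    rw [card_le_one]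
    intro a ha b hb
    obtain ⟨ha1, ha2⟩ := mem_filter.1 ha
    obtain ⟨hb1, hb2⟩ := mem_filter.1 hb
    by_contra hne
    have h2 := hsep a ha1 b hb1 hne
    have h3 := hM a ha1
    have h4 := hM b hb1
    unfold Bd at ha2 hb2
    rw [mem_Ico] at ha2 hb2
    omega
  have h2 := card_filter_add_card_filter_not (s := M) (fun m => m ∈ Bd j U)
  omega

lemma ev_log_const (c K : ℝ) (hc : 0 < c) (k : ℕ) : ∀ᶠ j : ℕ in atTop,
    K * (j : ℝ) ^ k ≤ Real.exp (c * Real.log j ^ 2) := by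
  filter_upwards [ev_log_exp c hc (k + 1),
    (tendsto_natCast_atTop_atTop (R := ℝ)).eventually_ge_atTop (|K| + 1)] with j h1 h2
  have hK := abs_nonneg K
  have hj0 : (0 : ℝ) < j := by linarith
  rw [Real.exp_neg, one_div] at h1
  have h3 : (j : ℝ) ^ (k + 1) ≤ Real.exp (c * Real.log j ^ 2) :=
    (inv_le_inv₀ (Real.exp_pos _) (by positivity)).1 h1
  refine le_trans ?_ h3
  calc K * (j : ℝ) ^ k ≤ j * (j : ℝ) ^ k := by
        have := le_abs_self K
        gcongr; linarith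
    _ = (j : ℝ) ^ (k + 1) := by ring

theorem lo_mix (y : ℕ → ℕ) (b : ℕ → ℕ → ℕ) (hyw : ∀ᶠ j : ℕ in atTop, wj j ≤ y j) (hy : SubE y)
    (δ C0 : ℝ) (hδ : 0 < δ) (hδ1 : δ ≤ 1) (hC0 : 1 ≤ C0) {Ω : Type}
    [MeasurableSpace Ω] (μ : Measure Ω) [IsProbabilityMeasure μ] (A : ℕ → Ω → ℕ)
    (hA : RandomClasses μ A) (Z : ℕ → ℕ)
    (hZ : Tendsto (fun j : ℕ => V (Z j) * (j * Real.log 2)) atTop (𝓝 1)) :
    ∀ᵐ ω ∂μ, ∀ᶠ j : ℕ in atTop, ∀ U : ℕ, UOK C0 j U →
      Real.exp (δ * ((U : ℝ) / j)) ≤ Fw (b j) (y j) (V (Z j) / V (y j)) j U →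
      Real.exp (-(δ * ((U : ℝ) / j))) * Fw (b j) (y j) (V (Z j) / V (y j)) j U ≤
      (((Bd j U).filter (fun m => T1 (mix (y j) (b j) (fun p => A p ω)) (Z j) m U = 0)).card :
        ℝ) := by
  classical
  obtain ⟨C0', hC0'⟩ : ∃ C0' : ℝ, C0' = C0 + 30 := ⟨_, rfl⟩
  have hC0'1 : 1 ≤ C0' := by rw [hC0']; linarith
  obtain ⟨η, hη⟩ : ∃ η : ℝ, η = min (δ / 16) (1 / (8 * C0')) := ⟨_, rfl⟩
  have hη0 : 0 < η := by rw [hη]; exact lt_min (by positivity) (by positivity)
  have hηδ : η ≤ δ / 16 := by rw [hη]; exact min_le_left _ _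
  have hηC : η * C0' ≤ 1 / 8 := by
    have h1 : η ≤ 1 / (8 * C0') := by rw [hη]; exact min_le_right _ _
    rw [le_div_iff₀ (by positivity)] at h1
    linarith
  obtain ⟨I, hI⟩ : ∃ I : ℕ, 24 / η ≤ I := exists_nat_ge _
  have hI' : 24 ≤ η * I := by
    rw [div_le_iff₀ hη0] at hI; linarith
  obtain ⟨I', hI'2⟩ : ∃ I' : ℕ, I' = ⌈24 / η⌉₊ := ⟨_, rfl⟩
  have hI1 : 24 ≤ η * I' := by
    have := Nat.le_ceil (24 / η)
    rw [← hI'2, div_le_iff₀ hη0] at this
    linarith
  have hI2 : η * I' ≤ 25 := by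
    have := Nat.ceil_lt_add_one (show 0 ≤ 24 / η by positivity)
    rw [← hI'2] at this
    have h2 : η * I' ≤ η * (24 / η + 1) := by gcongr
    have h3 : η * (24 / η + 1) = 24 + η := by field_simp
    linarith
  obtain ⟨ε2, κρ, hε2, hε21, hκρ, hkill⟩ := kill_all η C0' η hη0 hC0'1 hηC hη0
  have hyt : Tendsto y atTop atTop := tendsto_atTop_mono' atTop hyw wj_tendsto
  have hρ := rho_sub (WY_sub hy) (WY_ge_two y) hZ
  have hWZ := W_le_Z hρ
  obtain ⟨Z1, hlev⟩ := lev_ev ε2 κρ hε2 hε21 hκρ y (WY y) Z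
    (Eventually.of_forall fun _ => le_max_left _ _) (Eventually.of_forall fun _ => le_max_right _ _)
    hρ hZ
  have hvz : ∀ᶠ j : ℕ in atTop, 1 ≤ (j : ℝ) * V (Z j) ∧ (j : ℝ) * V (Z j) ≤ 2 := by
    have hl2a := Real.log_two_gt_d9
    have hl2b := Real.log_two_lt_d9
    filter_upwards [hZ.eventually (lt_mem_nhds (show (0.9 : ℝ) < 1 by norm_num)),
      hZ.eventually (gt_mem_nhds (show (1 : ℝ) < 1.1 by norm_num))] with j h1 h2
    have h3 : 0 ≤ (j : ℝ) * V (Z j) := mul_nonneg (Nat.cast_nonneg _) (V_pos _).le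
    constructor <;> nlinarith
  have hlogt : Tendsto (fun j : ℕ => Real.log (j : ℝ) ^ 2) atTop atTop :=
    (tendsto_pow_atTop (by norm_num)).comp
      (Real.tendsto_log_atTop.comp tendsto_natCast_atTop_atTop)
  filter_upwards [hkill μ A hA y b (WY y) Z1 Z hlev,
    conc_mix y b hyw (η / 2) (by positivity) (by linarith) μ A hA] with ω hω1 hω2
  filter_upwards [hω1, hω2, Fw_ge y hyt hy, hWZ,
    (V_WY_zero y).eventually (gt_mem_nhds (show (0 : ℝ) < 1 / 29 by norm_num)),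
    hvz, hlogt.eventually_ge_atTop (1 / η + 1), ev_log_const (13 * η) (32 * (I' + 1)) (by positivity) 25,
    pow3_le, eventually_ge_atTop 16] with j h1 h2 h3 h4 h5 h6 h7 h8 h9 h10
  obtain ⟨h6a, h6b⟩ := h6
  intro U hU hFbig
  obtain ⟨a, ha⟩ : ∃ a : ℕ → ℕ, a = mix (y j) (b j) (fun p => A p ω) := ⟨_, rfl⟩
  rw [← ha] at h1 h2 ⊢
  have hjr : (16 : ℝ) ≤ j := by exact_mod_cast h10
  have hj0 : (0 : ℝ) < j := by linarith
  have hVZ := V_pos (Z j)
  have hVW := V_pos (WY y j)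
  have hVy := V_pos (y j)
  obtain ⟨w, hw⟩ : ∃ w : ℝ, w = (U : ℝ) / j := ⟨_, rfl⟩
  have hu2 := hU.u2
  have h1η : 0 < 1 / η := by positivity
  have hw1 : 1 / η + 1 ≤ w := by rw [hw]; linarith
  have hw0 : 0 < w := by linarith
  have hηw : 1 ≤ η * w := by
    have h11 : 1 / η ≤ w := by linarith
    rw [div_le_iff₀ hη0] at h11
    linarith
  have hUpos : 1 ≤ U := by
    by_contra hcon
    have : U = 0 := by omega
    rw [this, Nat.cast_zero, zero_div] at hw
    linarith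
  have hUr : (0 : ℝ) < U := by exact_mod_cast hUpos
  have hUw : (U : ℝ) = w * j := by rw [hw]; field_simp
  have hUVZ : (U : ℝ) * V (Z j) ≤ 2 * w := by
    rw [hUw]
    calc w * j * V (Z j) = w * (j * V (Z j)) := by ring
      _ ≤ w * 2 := by gcongr
      _ = _ := by ring
  obtain ⟨ρ, hρd⟩ : ∃ ρ : ℝ, ρ = V (Z j) / V (y j) := ⟨_, rfl⟩
  have hρ0 : 0 < ρ := by rw [hρd]; positivity
  have hρU : ρ * (U * V (y j)) ≤ 2 * ((U : ℝ) / j) := by
    rw [hρd, ← hw]
    calc V (Z j) / V (y j) * (U * V (y j)) = U * V (Z j) := by field_simp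
      _ ≤ _ := hUVZ
  have hFge := h3 (b j) U ρ hU.u1 hUpos hρ0.le hρU
  rw [← hρd] at hFbig ⊢
  rw [← hw] at hFge hFbig hu2 ⊢
  obtain ⟨F, hF⟩ : ∃ F : ℝ, F = Fw (b j) (y j) ρ j U := ⟨_, rfl⟩
  rw [← hF] at hFge hFbig ⊢
  have hF0 : 0 < F := lt_of_lt_of_le (Real.exp_pos _) hFbig
  have hrest : ((Bd j U).card : ℝ) * Real.exp (-(24 * w)) ≤ F / 2 := by
    have e1 : Real.exp (-(24 * w)) = Real.exp (-(10 * w)) * Real.exp (-(14 * w)) := by
      rw [← Real.exp_add]; congr 1; ring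
    have e2 : Real.exp (-(14 * w)) ≤ 1 / 4 := by
      rw [Real.exp_neg, ← one_div]
      refine one_div_le_one_div_of_le (by norm_num) ?_
      have := Real.add_one_le_exp (14 * w)
      linarith
    calc ((Bd j U).card : ℝ) * Real.exp (-(24 * w)) =
        2 * (((Bd j U).card : ℝ) / 2 * Real.exp (-(10 * w))) * Real.exp (-(14 * w)) := by
          rw [e1]; ring
      _ ≤ 2 * F * (1 / 4) := by gcongr
      _ = F / 2 := by ring
  have h2j : 2 ^ j = 2 * 2 ^ (j - 1) := by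
    rw [← pow_succ']; congr 1; omega
  have h2j1 : 2 ^ (j + 1) = 4 * 2 ^ (j - 1) := by
    rw [pow_succ, h2j]; ring
  obtain ⟨k, hk1, hk2, i, hi, L, hLs, hLk, hLi, hLc⟩ := level_set (Bd j U)
    (fun k m => m ∈ Blk j k) (fun m => ρ * T1 (b j) (y j) m U)
    (fun m _ => by positivity) (fun m hm => by
      have hm' := mem_Ico.1 hm
      unfold Blk
      simp only [mem_Ico]
      omega) η w hη0 hw0 I' hI1 F hF hrest hF0
  obtain ⟨M, hML, hMc, hMs⟩ := sep_sub' L U
  have hLpos : 0 < (L.card : ℝ) := by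
    by_contra hneg
    have e1 : (L.card : ℝ) = 0 := le_antisymm (not_lt.1 hneg) (Nat.cast_nonneg _)
    rw [e1, zero_mul] at hLc
    have : 0 < F / (4 * (I' + 1)) := by positivity
    linarith
  have hMpos : 0 < M.card := by
    by_contra hneg
    have e1 : M.card = 0 := by omega
    rw [e1, Nat.cast_zero, mul_zero] at hMc
    linarith
  obtain ⟨i', hi'⟩ : ∃ i', i' = Nat.log 2 M.card := ⟨_, rfl⟩
  have hi1 : 2 ^ i' ≤ M.card := by rw [hi']; exact Nat.pow_log_le_self 2 (by omega)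
  have hi2 : M.card < 2 ^ (i' + 1) := by
    rw [hi']; exact Nat.lt_pow_succ_log_self (by norm_num) _
  have hi1r : (2 : ℝ) ^ i' ≤ M.card := by exact_mod_cast hi1
  have hi2r : (M.card : ℝ) ≤ 2 * 2 ^ i' := by
    have : M.card ≤ 2 * 2 ^ i' := by rw [← pow_succ']; exact hi2.le
    exact_mod_cast this
  have hMblk : M ⊆ Blk j k := fun m hm => hLk m (hML hm)
  have hij : i' ≤ j := by
    have e1 : M.card ≤ 2 ^ (j - 1) := by
      refine (card_le_card hMblk).trans (le_of_eq ?_)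
      unfold Blk
      rw [Nat.card_Ico, Nat.succ_mul]
      omega
    have e2 : 2 ^ i' ≤ 2 ^ (j - 1) := hi1.trans e1
    have := (Nat.pow_le_pow_iff_right (by norm_num : 1 < 2)).1 e2
    omega
  obtain ⟨ρ', hρ'd⟩ : ∃ ρ' : ℝ, ρ' = V (Z j) / V (WY y j) := ⟨_, rfl⟩
  have hρ'0 : 0 < ρ' := by rw [hρ'd]; positivity
  have hρ'1 : ρ' ≤ 1 := by rw [hρ'd, div_le_one hVW]; exact V_anti h4
  obtain ⟨n, hn⟩ : ∃ n : ℕ, n = ⌊(i + 2) * (η * w) / ρ'⌋₊ := ⟨_, rfl⟩
  have hn1 : ρ' * n ≤ (i + 2) * (η * w) := by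
    have := Nat.floor_le (show 0 ≤ (i + 2) * (η * w) / ρ' by positivity)
    rw [← hn, le_div_iff₀ hρ'0] at this
    linarith
  have hn2 : (i + 2) * (η * w) - 1 ≤ ρ' * n := by
    have := Nat.lt_floor_add_one ((i + 2) * (η * w) / ρ')
    rw [← hn, div_lt_iff₀ hρ'0] at this
    nlinarith
  have hir : (i : ℝ) ≤ I' := by exact_mod_cast hi
  have hi28 : (i + 2) * (η * w) ≤ 27 * w := by
    calc (i + 2) * (η * w) ≤ (I' + 2) * (η * w) := by gcongr
      _ = (η * I' + 2 * η) * w := by ring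
      _ ≤ 27 * w := by
          gcongr
          linarith
  have hMn : ∀ m ∈ M, T1 a (WY y j) m U ≤ n := by
    intro m hm
    have hmB := mem_Ico.1 (hLs (hML hm))
    have g1 := h2 m (by
      have e3 : 2 ^ (j + 3) = 16 * 2 ^ (j - 1) := by
        have : j + 3 = 4 + (j - 1) := by omega
        rw [this, pow_add]; norm_num
      omega) U hU.u1 hU.u2
    have g2 := hLi m (hML hm)
    rw [hn]
    refine Nat.le_floor ?_
    rw [le_div_iff₀ hρ'0]
    calc (T1 a (WY y j) m U : ℝ) * ρ' ≤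
        (V (WY y j) / V (y j) * T1 (b j) (y j) m U + η / 2 * (U * V (WY y j))) * ρ' := by gcongr
      _ = ρ * T1 (b j) (y j) m U + η / 2 * (U * V (Z j)) := by
          rw [hρ'd, hρd]; field_simp
      _ ≤ (i + 1) * (η * w) + η / 2 * (2 * w) := by gcongr
      _ = (i + 2) * (η * w) := by ring
  have hnU : n ≤ U := by
    have e1 : (n : ℝ) ≤ U := by
      have e2 : ρ' * n ≤ 27 * w := hn1.trans hi28
      have e3 : ρ' * n ≤ ρ' * U := by
        refine e2.trans ?_
        rw [hρ'd, hUw, div_mul_eq_mul_div, le_div_iff₀ hVW]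
        calc 27 * w * V (WY y j) ≤ 27 * w * (1 / 29) := by gcongr
          _ ≤ w * 1 := by linarith
          _ ≤ w * (j * V (Z j)) := by gcongr
          _ = V (Z j) * (w * j) := by ring
      exact le_of_mul_le_mul_left e3 hρ'0
    exact_mod_cast e1
  have c3 : η * ((U : ℝ) / j) ≤ V (Z j) / V (WY y j) * n := by
    rw [← hρ'd, ← hw]
    refine le_trans ?_ hn2
    have : 0 ≤ (i : ℝ) * (η * w) := by positivity
    linarith
  have c4 : V (Z j) / V (WY y j) * n ≤ C0' * ((U : ℝ) / j) := by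
    rw [← hρ'd, ← hw]
    refine (hn1.trans hi28).trans ?_
    have : 27 ≤ C0' := by rw [hC0']; linarith
    gcongr
  -- the size
  obtain ⟨D, hD⟩ : ∃ D : ℝ, D = 2 ^ i' * Real.exp (-(ρ' * n) - η * w) := ⟨_, rfl⟩
  have hU3 : (U : ℝ) + 1 ≤ 2 * (j : ℝ) ^ 3 := by
    have e1 : (U : ℝ) ≤ (j : ℝ) ^ 3 := by exact_mod_cast hU.u1
    have e2 : (1 : ℝ) ≤ (j : ℝ) ^ 3 := one_le_pow₀ (by linarith)
    linarith
  have hDF : F * Real.exp (-(3 * (η * w))) ≤ (16 * (I' + 1) * (j : ℝ) ^ 3) * D := by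
    have e1 : (L.card : ℝ) ≤ (2 * (j : ℝ) ^ 3) * (2 * 2 ^ i') := by
      calc (L.card : ℝ) ≤ (U + 1) * M.card := hMc
        _ ≤ _ := mul_le_mul hU3 hi2r (Nat.cast_nonneg _) (by positivity)
    have e2 : F ≤ (4 * (I' + 1)) * (((2 * (j : ℝ) ^ 3) * (2 * 2 ^ i')) *
        Real.exp (-(i * (η * w)))) := by
      rw [div_le_iff₀ (by positivity)] at hLc
      calc F ≤ L.card * Real.exp (-(i * (η * w))) * (4 * (I' + 1)) := hLc
        _ ≤ ((2 * (j : ℝ) ^ 3) * (2 * 2 ^ i')) * Real.exp (-(i * (η * w))) * (4 * (I' + 1)) := by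
            gcongr
        _ = _ := by ring
    calc F * Real.exp (-(3 * (η * w))) ≤ ((4 * (I' + 1)) * (((2 * (j : ℝ) ^ 3) * (2 * 2 ^ i')) *
        Real.exp (-(i * (η * w))))) * Real.exp (-(3 * (η * w))) := by gcongr
      _ = (16 * (I' + 1) * (j : ℝ) ^ 3) * (2 ^ i' * (Real.exp (-(i * (η * w))) *
          Real.exp (-(3 * (η * w))))) := by ring
      _ ≤ (16 * (I' + 1) * (j : ℝ) ^ 3) * D := by
          rw [hD, ← Real.exp_add]
          have : -(i * (η * w)) + -(3 * (η * w)) ≤ -(ρ' * n) - η * w := by linarith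
          gcongr
  have hlogw : 13 * η * Real.log j ^ 2 ≤ 13 * (η * w) := by nlinarith
  have hbig : 32 * (I' + 1) * (j : ℝ) ^ 25 ≤ Real.exp (13 * (η * w)) :=
    h8.trans (Real.exp_le_exp.2 hlogw)
  have hj22 : (1 : ℝ) ≤ (j : ℝ) ^ 22 := one_le_pow₀ (by linarith)
  have hDbig : 2 * (j : ℝ) ^ 22 ≤ D := by
    have e1 : Real.exp (13 * (η * w)) ≤ F * Real.exp (-(3 * (η * w))) := by
      calc Real.exp (13 * (η * w)) ≤ Real.exp (δ * w) * Real.exp (-(3 * (η * w))) := by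
            rw [← Real.exp_add]
            refine Real.exp_le_exp.2 ?_
            have : 16 * (η * w) ≤ δ * w := by nlinarith
            linarith
        _ ≤ _ := by gcongr
    have e2 : (16 * (I' + 1) * (j : ℝ) ^ 3) * (2 * (j : ℝ) ^ 22) ≤
        (16 * (I' + 1) * (j : ℝ) ^ 3) * D := by
      calc (16 * (I' + 1) * (j : ℝ) ^ 3) * (2 * (j : ℝ) ^ 22) = 32 * (I' + 1) * (j : ℝ) ^ 25 := by
            ring
        _ ≤ _ := hbig.trans (e1.trans hDF)
    exact le_of_mul_le_mul_left e2 (by positivity)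
  have c5 : (j : ℝ) ^ 22 ≤ 2 ^ i' * Real.exp (-(V (Z j) / V (WY y j) * n) -
      η * ((U : ℝ) / j)) := by
    rw [← hρ'd, ← hw, ← hD]
    linarith
  have hfin := h1 k (by omega) U hU.u1 n hnU i' hij hU.u2 (by
    have := hU.u3
    rw [div_le_iff₀ hj0]
    calc (U : ℝ) ≤ C0 * (j : ℝ) ^ 2 := this
      _ ≤ C0' * (j : ℝ) ^ 2 := by
          have : C0 ≤ C0' := by rw [hC0']; linarith
          gcongr
      _ = C0' * j * j := by ring) c3 c4 c5 ⟨M, hMblk, hi1r, hMs, hMn⟩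
  rw [← hρ'd, ← hw, ← hD] at hfin
  obtain ⟨M', g1, g2, g3, g4⟩ := hfin
  have hzone := sep_zone (j := j) hUpos g3 (fun m hm => by
    have hm' := mem_Ico.1 (g1 hm)
    have e4 : 2 * 2 ^ (j - 1) ≤ k * 2 ^ (j - 1) := Nat.mul_le_mul_right _ hk1
    have e5 : (k + 1) * 2 ^ (j - 1) ≤ 4 * 2 ^ (j - 1) := Nat.mul_le_mul_right _ (by omega)
    omega)
  have hcount : (M'.filter (fun m => m ∈ Bd j U)).card ≤
      ((Bd j U).filter (fun m => T1 a (Z j) m U = 0)).card := by
    refine card_le_card fun m hm => ?_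
    obtain ⟨e1, e2⟩ := mem_filter.1 hm
    exact mem_filter.2 ⟨e2, by have := g4 m e1; omega⟩
  have hc2 : D ≤ (((Bd j U).filter (fun m => T1 a (Z j) m U = 0)).card : ℝ) + 1 := by
    refine g2.trans ?_
    exact_mod_cast hzone.trans (Nat.add_le_add_right hcount 1)
  have hD1 : D / 2 ≤ (((Bd j U).filter (fun m => T1 a (Z j) m U = 0)).card : ℝ) := by
    have : 2 ≤ D := by linarith
    linarith
  refine le_trans ?_ hD1
  -- `exp (-δ w) F ≤ D / 2`
  have e1 : Real.exp (-(δ * w)) * F * (32 * (I' + 1) * (j : ℝ) ^ 3) ≤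
      F * Real.exp (-(3 * (η * w))) := by
    have e2 : 32 * (I' + 1) * (j : ℝ) ^ 3 ≤ Real.exp (13 * (η * w)) := by
      refine le_trans ?_ hbig
      have : (j : ℝ) ^ 3 ≤ (j : ℝ) ^ 25 := pow_le_pow_right₀ (by linarith) (by norm_num)
      gcongr
    calc Real.exp (-(δ * w)) * F * (32 * (I' + 1) * (j : ℝ) ^ 3) ≤
        Real.exp (-(δ * w)) * F * Real.exp (13 * (η * w)) := by gcongr
      _ = F * (Real.exp (-(δ * w)) * Real.exp (13 * (η * w))) := by ring
      _ ≤ F * Real.exp (-(3 * (η * w))) := by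
          rw [← Real.exp_add]
          have : -(δ * w) + 13 * (η * w) ≤ -(3 * (η * w)) := by
            have : 16 * (η * w) ≤ δ * w := by nlinarith
            linarith
          gcongr
  have e3 := e1.trans hDF
  have e4 : (16 * (I' + 1) * (j : ℝ) ^ 3) * (2 * (Real.exp (-(δ * w)) * F)) ≤
      (16 * (I' + 1) * (j : ℝ) ^ 3) * D := by
    refine le_trans (le_of_eq ?_) e3
    ring
  have e5 := le_of_mul_le_mul_left e4 (by positivity)
  linarith

end Pool.Agent.H532.HY
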