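import Mathlib
import Pool.Agent.H532.HY.Slack
import Pool.Agent.H532.HY.Conc

/-!
The number of empty windows in the hybrid sieve: upper bound by the sum of the weights.
-/

namespace Pool.Agent.H532.HY

open Finset MeasureTheory Function ProbabilityTheory Filter Pool.Agent.H532.RM Pool.Agent.H532.LG
open scoped ENNReal Topology

lemma markov_sum {Ω : Type} [MeasurableSpace Ω] (μ : Measure Ω) [IsProbabilityMeasure μ]
    (s : Finset ℕ) (E : ℕ → Set Ω) (q : ℕ → ℝ) (t : ℝ) (hE : ∀ m ∈ s, MeasurableSet (E m))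
    (hq : ∀ m ∈ s, μ (E m) ≤ ENNReal.ofReal (q m)) (hq0 : ∀ m ∈ s, 0 ≤ q m) (ht : 0 < t) :
    μ {ω | t < ∑ m ∈ s, (E m).indicator (fun _ => (1 : ℝ)) ω} ≤
      ENNReal.ofReal ((∑ m ∈ s, q m) / t) := by
  have h1 : {ω | t < ∑ m ∈ s, (E m).indicator (fun _ => (1 : ℝ)) ω} ⊆
      {ω | ENNReal.ofReal t ≤ ∑ m ∈ s, (E m).indicator (fun _ => (1 : ℝ≥0∞)) ω} := by
    intro ω hω
    have e : ∑ m ∈ s, (E m).indicator (fun _ => (1 : ℝ≥0∞)) ω =
        ENNReal.ofReal (∑ m ∈ s, (E m).indicator (fun _ => (1 : ℝ)) ω) := by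
      rw [ENNReal.ofReal_sum_of_nonneg fun m _ => Set.indicator_nonneg (fun _ _ => zero_le_one) _]
      refine sum_congr rfl fun m _ => ?_
      by_cases h : ω ∈ E m
      · rw [Set.indicator_of_mem h, Set.indicator_of_mem h, ENNReal.ofReal_one]
      · rw [Set.indicator_of_notMem h, Set.indicator_of_notMem h, ENNReal.ofReal_zero]
    show ENNReal.ofReal t ≤ _
    rw [e]
    exact ENNReal.ofReal_le_ofReal (le_of_lt hω)
  have hmeas : Measurable (fun ω => ∑ m ∈ s, (E m).indicator (fun _ => (1 : ℝ≥0∞)) ω) :=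
    Finset.measurable_sum s fun m hm => measurable_const.indicator (hE m hm)
  have h2 := mul_meas_ge_le_lintegral (μ := μ) hmeas (ENNReal.ofReal t)
  have h3 : ∫⁻ ω, ∑ m ∈ s, (E m).indicator (fun _ => (1 : ℝ≥0∞)) ω ∂μ ≤
      ENNReal.ofReal (∑ m ∈ s, q m) := by
    rw [lintegral_finset_sum s fun m hm => measurable_const.indicator (hE m hm),
      ENNReal.ofReal_sum_of_nonneg hq0]
    refine sum_le_sum fun m hm => ?_
    have := hq m hm
    rwa [← lintegral_indicator_one (hE m hm)] at this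
  calc μ {ω | t < ∑ m ∈ s, (E m).indicator (fun _ => (1 : ℝ)) ω} ≤
      μ {ω | ENNReal.ofReal t ≤ ∑ m ∈ s, (E m).indicator (fun _ => (1 : ℝ≥0∞)) ω} :=
        measure_mono h1
    _ ≤ ENNReal.ofReal (∑ m ∈ s, q m) / ENNReal.ofReal t := by
        rw [ENNReal.le_div_iff_mul_le (Or.inl (by simpa using ht)) (Or.inl ENNReal.ofReal_ne_top),
          mul_comm]
        exact h2.trans h3
    _ = ENNReal.ofReal ((∑ m ∈ s, q m) / t) := (ENNReal.ofReal_div_of_pos ht).symm

section
variable {Ω : Type} [MeasurableSpace Ω] {μ : Measure Ω} [IsProbabilityMeasure μ]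
  {A : ℕ → Ω → ℕ}

lemma measurable_T1m (hA : RandomClasses μ A) (y : ℕ) (b : ℕ → ℕ) (Z m U : ℕ) :
    Measurable (fun ω => T1 (mix y b (fun p => A p ω)) Z m U) := by
  have hA' : Measurable (fun ω (p : ℕ) => A p ω) := measurable_pi_lambda _ hA.meas
  have h1 : Measurable (fun a : ℕ → ℕ => T1 (mix y b a) Z m U) := by
    refine DepOn.measurable (s := primesLe Z) ?_
    intro a a' haa
    unfold T1
    beta_reduce
    rw [TT_congr {0} (mix y b a) (mix y b a') (primesLe Z) m U fun p hp => by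
      rw [mix_congr b a a' (haa p hp)]]
  exact h1.comp hA'

end

/-- the probability of an empty window -/
theorem empty_prob_mix : ∃ C : ℝ, 0 < C ∧ ∀ {Ω : Type} [MeasurableSpace Ω] (μ : Measure Ω)
    [IsProbabilityMeasure μ] (A : ℕ → Ω → ℕ), RandomClasses μ A → ∀ (y W Z m U : ℕ) (b : ℕ → ℕ),
    4 ≤ y → y ≤ W → W ≤ Z → U ≤ W → 4 * (U : ℝ) ^ 2 ≤ W → ∀ κ' : ℝ,
    V Z / V W * (1 + C * (U * V W * (Real.log y / y))) ≤ κ' → κ' ≤ 1 →
    μ {ω | T1 (mix y b (fun p => A p ω)) Z m U = 0} ≤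
      ENNReal.ofReal (2 * Real.exp (-(V Z / V y * Real.exp (-(4 * κ')) * T1 b y m U))) := by
  classical
  obtain ⟨C, hC, hlm⟩ := empty_lm
  refine ⟨C, hC, ?_⟩
  intro Ω _ μ _ A hA y W Z m U b hw hwW hWZ hUW hU4 κ' hκ hκ1
  have := fun p => law_prob hA p
  have hyZ : y ≤ Z := hwW.trans hWZ
  set P := bigP y Z with hP
  set S := TT {0} b (primesLe y) m U with hS
  set f : (ℕ → ℕ) → ℝ≥0∞ := fun a => if (surv (OmD {0}) P a S).card = 0 then 1 else 0 with hf
  have hsd : ∀ a a' : ℕ → ℕ, (∀ p ∈ P, a p = a' p) →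
      surv (OmD {0}) P a S = surv (OmD {0}) P a' S := fun a a' h => surv_congr P h S
  have hdep : DepOn P f := by
    intro a a' haa
    rw [hf]
    simp only
    rw [hsd a a' haa]
  have hPp : ∀ p ∈ P, p.Prime := fun p hp => (mem_bigP.1 hp).1.2
  have heq := lintegral_eq_lmarginal hA P hPp f hdep (fun _ => 0)
  have hms : MeasurableSet {ω | (surv (OmD {0}) P (fun p => A p ω) S).card = 0} := by
    have hA' : Measurable (fun ω (p : ℕ) => A p ω) := measurable_pi_lambda _ hA.meas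
    have h1 : Measurable (fun a : ℕ → ℕ => (surv (OmD {0}) P a S).card) := by
      refine DepOn.measurable (s := P) ?_
      intro a a' haa
      beta_reduce
      rw [hsd a a' haa]
    exact (h1.comp hA') (measurableSet_singleton 0)
  have hrw : ∫⁻ ω, f (fun p => A p ω) ∂μ =
      μ {ω | (surv (OmD {0}) P (fun p => A p ω) S).card = 0} := by
    rw [← lintegral_indicator_one hms]
    refine lintegral_congr fun ω => ?_
    rw [Set.indicator_apply]
    rfl
  have hle : μ {ω | T1 (mix y b (fun p => A p ω)) Z m U = 0} ≤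
      μ {ω | (surv (OmD {0}) P (fun p => A p ω) S).card = 0} := by
    refine measure_mono_ae ?_
    filter_upwards [ae_lt hA] with ω hω h1
    show (surv _ _ _ _).card = 0
    have e1 : TT {0} (mix y b (fun p => A p ω)) (primesLe y) m U = S := by
      refine TT_congr {0} _ _ _ _ _ fun p hp => ?_
      unfold mix
      rw [if_pos (mem_primesLe.1 hp).1]
    have e2 := surv_TTm b le_rfl hyZ m U (fun p => A p ω) hω
    rw [e1] at e2
    rw [e2]
    exact h1
  refine hle.trans ?_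
  rw [← hrw, heq]
  have hin : InWin m U S := inWin_TT b (primesLe y) m U
  exact hlm (law μ A) y W Z m U S hw hwW hWZ (fun p hp => law_unif hA (mem_bigP.1 hp).1.2) hin
    hUW hU4 κ' hκ hκ1 _

theorem up_mix (y : ℕ → ℕ) (b : ℕ → ℕ → ℕ) (hyw : ∀ᶠ j : ℕ in atTop, wj j ≤ y j) (hy : SubE y)
    (δ C0 : ℝ) (hδ : 0 < δ) (hδ1 : δ ≤ 1) (hC0 : 0 < C0) {Ω : Type}
    [MeasurableSpace Ω] (μ : Measure Ω) [IsProbabilityMeasure μ] (A : ℕ → Ω → ℕ)
    (hA : RandomClasses μ A) (Z : ℕ → ℕ)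
    (hZ : Tendsto (fun j : ℕ => V (Z j) * (j * Real.log 2)) atTop (𝓝 1)) :
    ∀ᵐ ω ∂μ, ∀ᶠ j : ℕ in atTop, ∀ U : ℕ, UOK C0 j U →
      (((Bd j U).filter (fun m => T1 (mix (y j) (b j) (fun p => A p ω)) (Z j) m U = 0)).card : ℝ) ≤
        Real.exp (δ * ((U : ℝ) / j)) * Fw (b j) (y j) (V (Z j) / V (y j)) j U := by
  classical
  obtain ⟨CK, hCK, hprob⟩ := empty_prob_mix
  obtain ⟨κ', hκ'⟩ : ∃ κ' : ℝ, κ' = δ / 768 := ⟨_, rfl⟩
  have hκ'0 : 0 < κ' := by rw [hκ']; positivity
  have hκ'1 : κ' ≤ 1 := by rw [hκ']; linarith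
  have hyt : Tendsto y atTop atTop := tendsto_atTop_mono' atTop hyw wj_tendsto
  have hρ := rho_sub (WY_sub hy) (WY_ge_two y) hZ
  have hWZ := W_le_Z hρ
  have hvz : ∀ᶠ j : ℕ in atTop, 1 ≤ (j : ℝ) * V (Z j) ∧ (j : ℝ) * V (Z j) ≤ 2 := by
    have hl2a := Real.log_two_gt_d9
    have hl2b := Real.log_two_lt_d9
    filter_upwards [hZ.eventually (lt_mem_nhds (show (0.9 : ℝ) < 1 by norm_num)),
      hZ.eventually (gt_mem_nhds (show (1 : ℝ) < 1.1 by norm_num))] with j h1 h2
    have h3 : 0 ≤ (j : ℝ) * V (Z j) := mul_nonneg (Nat.cast_nonneg _) (V_pos _).le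
    constructor <;> nlinarith
  set Ev : ℕ → ℕ → Set Ω := fun j U =>
    {ω | Real.exp (δ * ((U : ℝ) / j)) * Fw (b j) (y j) (V (Z j) / V (y j)) j U <
      ∑ m ∈ Bd j U, ({ω | T1 (mix (y j) (b j) (fun p => A p ω)) (Z j) m U = 0}).indicator
        (fun _ => (1 : ℝ)) ω} with hEv
  set F : ℕ → Finset ℕ := fun j => (range (j ^ 3 + 1)).filter (fun U => UOK C0 j U) with hF
  set E : ℕ → Set Ω := fun j => ⋃ U ∈ F j, Ev j U with hE
  have hmeas : ∀ᶠ j : ℕ in atTop, μ (E j) ≤ ENNReal.ofReal (1 / (j : ℝ) ^ 2) := by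
    filter_upwards [slack y hyt hy (δ / 4) (by positivity), hWZ, hyw,
      hρ.eventually (gt_mem_nhds (show (0 : ℝ) < κ' / 2 by positivity)), hvz,
      ev_log_exp (3 * δ / 4) (by positivity) 7, wj_large (4 * CK * C0 / κ'),
      wj_tendsto.eventually_ge_atTop 4, eventually_ge_atTop 16, pow3_le] with
      j h1 h2 h3 h4 h5 h6 h7 h8 h9 hpow
    obtain ⟨h5a, h5b⟩ := h5
    have hjr : (16 : ℝ) ≤ j := by exact_mod_cast h9
    have hj0 : (0 : ℝ) < j := by linarith
    have hVZ := V_pos (Z j)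
    have hVW := V_pos (WY y j)
    have hVy := V_pos (y j)
    have hy4 : 4 ≤ y j := h8.trans h3
    have hyr : (4 : ℝ) ≤ y j := by exact_mod_cast hy4
    have hyW : y j ≤ WY y j := le_max_left _ _
    have hWjr : ((Wj j : ℕ) : ℝ) = (j : ℝ) ^ 40 := by unfold Wj; push_cast; rfl
    have hWW : ((Wj j : ℕ) : ℝ) ≤ (WY y j : ℕ) := by exact_mod_cast le_max_right _ _
    have hlogy : 4 * CK * C0 / κ' * j * (Real.log (y j) / y j) ≤ 1 := by
      have hw4' : (4 : ℝ) ≤ wj j := by exact_mod_cast h8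
      have hanti : Real.log (y j) / y j ≤ Real.log (wj j) / wj j := by
        have he : Real.exp 1 ≤ 4 := by have := Real.exp_one_lt_d9; linarith
        exact Real.log_div_self_antitoneOn (a := ((wj j : ℕ) : ℝ)) (b := ((y j : ℕ) : ℝ))
          (show Real.exp 1 ≤ _ by linarith) (show Real.exp 1 ≤ _ by linarith)
          (by exact_mod_cast h3)
      calc 4 * CK * C0 / κ' * j * (Real.log (y j) / y j) ≤
          4 * CK * C0 / κ' * j * (Real.log (wj j) / wj j) := by gcongr
        _ ≤ 1 := by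
            rw [← mul_div_assoc, div_le_one (by linarith)]
            exact h7
    have hone : ∀ U ∈ F j, μ (Ev j U) ≤ ENNReal.ofReal (2 / (j : ℝ) ^ 7) := by
      intro U hU'
      obtain ⟨_, hU⟩ := mem_filter.1 hU'
      obtain ⟨w, hw⟩ : ∃ w : ℝ, w = (U : ℝ) / j := ⟨_, rfl⟩
      obtain ⟨_, _, u3⟩ := hU.w_le (by omega) hC0
      have hu2 := hU.u2
      have hw0 : 0 ≤ w := by rw [hw]; positivity
      have hUVZ : (U : ℝ) * V (Z j) ≤ 2 * w := by
        rw [hw]
        calc (U : ℝ) * V (Z j) = (U / j) * (j * V (Z j)) := by field_simp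
          _ ≤ (U / j) * 2 := by gcongr
          _ = _ := by ring
      have hUW : U ≤ WY y j := by
        refine le_trans ?_ (le_max_right _ _)
        exact hU.u1.trans (by unfold Wj; exact Nat.pow_le_pow_right (by omega) (by norm_num))
      have hU3 : (U : ℝ) ≤ (j : ℝ) ^ 3 := by exact_mod_cast hU.u1
      have hU4 : 4 * (U : ℝ) ^ 2 ≤ (WY y j : ℕ) := by
        refine le_trans ?_ hWW
        rw [hWjr]
        calc 4 * (U : ℝ) ^ 2 ≤ j * ((j : ℝ) ^ 3) ^ 2 := by gcongr; linarith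
          _ = (j : ℝ) ^ 7 := by ring
          _ ≤ (j : ℝ) ^ 40 := pow_le_pow_right₀ (by linarith) (by norm_num)
      have hκb : V (Z j) / V (WY y j) * (1 + CK * (U * V (WY y j) *
          (Real.log (y j) / (y j : ℕ)))) ≤ κ' := by
        have e1 : V (Z j) / V (WY y j) * (1 + CK * (U * V (WY y j) *
          (Real.log (y j) / (y j : ℕ)))) = V (Z j) / V (WY y j) +
          CK * (U * V (Z j)) * (Real.log (y j) / (y j : ℕ)) := by
          field_simp
        have hly : 0 ≤ Real.log (y j) := Real.log_natCast_nonneg _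
        have e2 : CK * (U * V (Z j)) * (Real.log (y j) / (y j : ℕ)) ≤ κ' / 2 := by
          calc CK * (U * V (Z j)) * (Real.log (y j) / (y j : ℕ)) ≤
              CK * (2 * (C0 * j)) * (Real.log (y j) / (y j : ℕ)) := by
                have : (U : ℝ) * V (Z j) ≤ 2 * (C0 * j) := by
                  refine hUVZ.trans ?_
                  rw [hw]; linarith
                gcongr
            _ = κ' / 2 * (4 * CK * C0 / κ' * j * (Real.log (y j) / y j)) := by
                field_simp; ring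
            _ ≤ κ' / 2 * 1 := by gcongr
            _ = κ' / 2 := mul_one _
        rw [e1]
        linarith
      obtain ⟨ρ, hρd⟩ : ∃ ρ : ℝ, ρ = V (Z j) / V (y j) := ⟨_, rfl⟩
      have hρ0 : 0 < ρ := by rw [hρd]; positivity
      have hρU : ρ * (U * V (y j)) ≤ 2 * ((U : ℝ) / j) := by
        rw [hρd, ← hw]
        calc V (Z j) / V (y j) * (U * V (y j)) = U * V (Z j) := by field_simp
          _ ≤ _ := hUVZ
      have hp : ∀ m ∈ Bd j U, μ {ω | T1 (mix (y j) (b j) (fun p => A p ω)) (Z j) m U = 0} ≤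
          ENNReal.ofReal (2 * Real.exp (-(Real.exp (-(4 * κ')) *
            (ρ * T1 (b j) (y j) m U)))) := by
        intro m _
        have := hprob μ A hA (y j) (WY y j) (Z j) m U (b j) hy4 hyW h2 hUW hU4 κ' hκb hκ'1
        refine this.trans (le_of_eq ?_)
        rw [hρd]
        congr 3
        ring
      have hθ : 1 - (δ / 4) / 48 ≤ Real.exp (-(4 * κ')) := by
        have := Real.add_one_le_exp (-(4 * κ'))
        rw [hκ'] at this ⊢
        linarith
      have hsl := h1 (b j) U ρ (Real.exp (-(4 * κ'))) hU.u1 hU.u2 hρ0.le hρU hθ (by linarith)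
      have hFpos : 0 < Fw (b j) (y j) ρ j U := by
        unfold Fw
        refine sum_pos (fun _ _ => Real.exp_pos _) ?_
        rw [← card_pos]
        have := (card_Bd hpow hU.u1 (by omega)).1
        have h10 : 0 < 2 ^ (j - 1) := by positivity
        omega
      rw [← hw] at hsl hu2
      have hmk := markov_sum μ (Bd j U)
        (fun m => {ω | T1 (mix (y j) (b j) (fun p => A p ω)) (Z j) m U = 0})
        (fun m => 2 * Real.exp (-(Real.exp (-(4 * κ')) * (ρ * T1 (b j) (y j) m U))))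
        (Real.exp (δ * w) * Fw (b j) (y j) ρ j U)
        (fun m _ => measurable_T1m hA (y j) (b j) (Z j) m U (measurableSet_singleton 0)) hp
        (fun m _ => by positivity) (by positivity)
      have hEvj : Ev j U = {ω | Real.exp (δ * w) * Fw (b j) (y j) ρ j U <
          ∑ m ∈ Bd j U, ({ω | T1 (mix (y j) (b j) (fun p => A p ω)) (Z j) m U = 0}).indicator
            (fun _ => (1 : ℝ)) ω} := by rw [hEv, hw, hρd]
      rw [hEvj]
      refine hmk.trans (ENNReal.ofReal_le_ofReal ?_)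
      rw [div_le_iff₀ (by positivity), ← mul_sum]
      have e4 : Real.exp (-(3 * δ / 4 * w)) ≤ 1 / (j : ℝ) ^ 7 := by
        refine le_trans (Real.exp_le_exp.2 ?_) h6
        have : 3 * δ / 4 * Real.log j ^ 2 ≤ 3 * δ / 4 * w := by gcongr
        linarith
      calc 2 * ∑ m ∈ Bd j U, Real.exp (-(Real.exp (-(4 * κ')) * (ρ * T1 (b j) (y j) m U))) ≤
          2 * (Real.exp (δ / 4 * w) * Fw (b j) (y j) ρ j U) := by gcongr
        _ = 2 * Real.exp (-(3 * δ / 4 * w)) * (Real.exp (δ * w) * Fw (b j) (y j) ρ j U) := by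
            have : Real.exp (δ / 4 * w) = Real.exp (-(3 * δ / 4 * w)) * Real.exp (δ * w) := by
              rw [← Real.exp_add]; congr 1; ring
            rw [this]; ring
        _ ≤ 2 * (1 / (j : ℝ) ^ 7) * (Real.exp (δ * w) * Fw (b j) (y j) ρ j U) := by gcongr
        _ = 2 / (j : ℝ) ^ 7 * (Real.exp (δ * w) * Fw (b j) (y j) ρ j U) := by ring
    calc μ (E j) ≤ ∑ U ∈ F j, μ (Ev j U) := measure_biUnion_finset_le _ _
      _ ≤ ∑ U ∈ F j, ENNReal.ofReal (2 / (j : ℝ) ^ 7) := sum_le_sum hone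
      _ = (F j).card * ENNReal.ofReal (2 / (j : ℝ) ^ 7) := by rw [sum_const, nsmul_eq_mul]
      _ ≤ ENNReal.ofReal ((j : ℝ) ^ 3 + 1) * ENNReal.ofReal (2 / (j : ℝ) ^ 7) := by
          gcongr
          rw [← ENNReal.ofReal_natCast]
          refine ENNReal.ofReal_le_ofReal ?_
          have g4 : (F j).card ≤ j ^ 3 + 1 := by
            refine (card_filter_le _ _).trans (le_of_eq ?_)
            rw [card_range]
          exact_mod_cast g4
      _ ≤ ENNReal.ofReal (1 / (j : ℝ) ^ 2) := by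
          rw [← ENNReal.ofReal_mul (by positivity)]
          refine ENNReal.ofReal_le_ofReal ?_
          have g5 : (1 : ℝ) ≤ (j : ℝ) ^ 3 := one_le_pow₀ (by linarith)
          calc ((j : ℝ) ^ 3 + 1) * (2 / (j : ℝ) ^ 7) ≤
              ((j : ℝ) ^ 3 + (j : ℝ) ^ 3) * (2 / (j : ℝ) ^ 7) := by gcongr
            _ = 4 / (j : ℝ) ^ 2 * (1 / (j : ℝ) ^ 2) := by field_simp; ring
            _ ≤ 1 * (1 / (j : ℝ) ^ 2) := by
                gcongr
                rw [div_le_one (by positivity)]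
                nlinarith
            _ = 1 / (j : ℝ) ^ 2 := one_mul _
  have hbc := borel_cantelli_sq μ E hmeas
  filter_upwards [hbc] with ω hω
  filter_upwards [hω] with j hj U hU
  have hmemF : U ∈ F j := by
    rw [hF]
    refine mem_filter.2 ⟨mem_range.2 ?_, hU⟩
    have := hU.u1
    omega
  by_contra hcon
  refine hj (Set.mem_biUnion (x := U) (mem_coe.2 hmemF) ?_)
  rw [not_le] at hcon
  rw [hEv]
  refine hcon.trans_le (le_of_eq ?_)
  rw [card_filter, Nat.cast_sum]
  refine sum_congr rfl fun m _ => ?_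
  rw [Set.indicator_apply]
  simp only [Set.mem_setOf_eq]
  split_ifs <;> simp

end Pool.Agent.H532.HY
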