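import Mathlib
import Pool.Agent.H532.HY.Up
import Pool.Agent.H532.HY.Lo
import Pool.Agent.H532.HY.ManyMix
import Pool.Agent.H532.HY.Const
import Pool.Agent.H532.LG.Final

/-!
The hybrid sieve: deduction of the theorem.
-/

namespace Pool.Agent.H532.HY

open Finset MeasureTheory Function ProbabilityTheory Filter Pool.Agent.H532.RM Pool.Agent.H532.LG
open scoped ENNReal Topology

/-- the hybrid sieve: in the block `[2 ^ j, 2 ^ (j + 1))` the classes are `b j p` for `p ≤ y j` and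
`a p` for the larger primes -/
def hyb (z y : ℕ → ℕ) (b : ℕ → ℕ → ℕ) (a : ℕ → ℕ) : Set ℕ :=
  {n | ∀ p : ℕ, p.Prime → p ≤ z n →
    ¬ n ≡ (if p ≤ y (Nat.log 2 n) then b (Nat.log 2 n) p else a p) [MOD p]}

/-- the number of the empty windows of length `H` inside the block -/
noncomputable def ew (R : Set ℕ) (j H : ℕ) : ℕ :=
  {m : ℕ | 2 ^ j ≤ m ∧ m + H < 2 ^ (j + 1) ∧ ∀ n ∈ R, m < n → m + H < n}.ncard

lemma ew_finite (R : Set ℕ) (j H : ℕ) :
    {m : ℕ | 2 ^ j ≤ m ∧ m + H < 2 ^ (j + 1) ∧ ∀ n ∈ R, m < n → m + H < n}.Finite := by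
  refine (Set.finite_Iio (2 ^ (j + 1))).subset fun m hm => ?_
  have := hm.2.1
  exact Set.mem_Iio.2 (by omega)

lemma log_two_eq {j n : ℕ} (h1 : 2 ^ j ≤ n) (h2 : n < 2 ^ (j + 1)) : Nat.log 2 n = j :=
  Nat.log_eq_of_pow_le_of_lt_pow h1 h2

lemma le_ew (z y : ℕ → ℕ) (hz : Monotone z) (b : ℕ → ℕ → ℕ) (a : ℕ → ℕ) (j H : ℕ) :
    ((Bd j H).filter (fun m => T1 (mix (y j) (b j) a) (z (2 ^ j)) m H = 0)).card ≤
      ew (hyb z y b a) j H := by
  unfold ew
  rw [← Set.ncard_coe_finset]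
  refine Set.ncard_le_ncard ?_ (ew_finite _ j H)
  intro m hm
  obtain ⟨h1, h2⟩ := mem_filter.1 (mem_coe.1 hm)
  have h3 := mem_Ico.1 h1
  refine ⟨h3.1, by omega, fun n hn hmn => ?_⟩
  by_contra hcon
  rw [not_lt] at hcon
  have hlog : Nat.log 2 n = j := log_two_eq (by omega) (by omega)
  have h4 : n ∈ TT {0} (mix (y j) (b j) a) (primesLe (z (2 ^ j))) m H := by
    refine mem_T1.2 ⟨⟨hmn, hcon⟩, fun p hp => ?_⟩
    obtain ⟨hp1, hp2⟩ := mem_primesLe.1 hp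
    have := hn p hp2 (hp1.trans (hz (by omega)))
    rw [hlog] at this
    exact this
  unfold T1 at h2
  rw [card_eq_zero] at h2
  rw [h2] at h4
  exact absurd h4 (notMem_empty _)

lemma ew_le (z y : ℕ → ℕ) (hz : Monotone z) (b : ℕ → ℕ → ℕ) (a : ℕ → ℕ) (j H : ℕ) :
    ew (hyb z y b a) j H ≤
      ((Bd j H).filter (fun m => T1 (mix (y j) (b j) a) (z (2 ^ (j + 1))) m H = 0)).card := by
  unfold ew
  rw [← Set.ncard_coe_finset]
  refine Set.ncard_le_ncard ?_ (Finset.finite_toSet _)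
  rintro m ⟨h1, h2, h3⟩
  refine mem_coe.2 (mem_filter.2 ⟨mem_Ico.2 ⟨h1, by omega⟩, ?_⟩)
  unfold T1
  rw [card_eq_zero, Finset.eq_empty_iff_forall_notMem]
  intro n hn
  obtain ⟨⟨n1, n2⟩, n3⟩ := mem_T1.1 hn
  have hlog : Nat.log 2 n = j := log_two_eq (by omega) (by omega)
  have hnR : n ∈ hyb z y b a := by
    intro p hp hpz
    rw [hlog]
    exact n3 p (mem_primesLe.2 ⟨hpz.trans (hz (by omega)), hp⟩)
  have := h3 n hnR n1
  omega

/-- the conditions for the length of the windows -/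
lemma uok_of (δ : ℝ) (hδ : 0 < δ) (hδ1 : δ ≤ 1) : ∀ᶠ j : ℕ in atTop, ∀ H : ℕ,
    (j * Real.log 2) * Real.log (j * Real.log 2) ^ 3 ≤ H →
    (H : ℝ) ≤ 1 / δ * (j * Real.log 2) ^ 2 → UOK (1 / δ) j H ∧
      2 * H / j / 4 ≤ ⌊(H : ℝ) / (j * Real.log 2)⌋₊ ∧
      ⌊(H : ℝ) / (j * Real.log 2)⌋₊ ≤ 2 * H / j := by
  have h1 : Tendsto (fun j : ℕ => Real.log (j : ℝ)) atTop atTop :=
    Real.tendsto_log_atTop.comp tendsto_natCast_atTop_atTop
  filter_upwards [h1.eventually_ge_atTop 16,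
    tendsto_natCast_atTop_atTop.eventually_ge_atTop (1 / δ), eventually_ge_atTop 16] with j h2 h3 h4
  intro H hH1 hH2
  have hj16 : (16 : ℝ) ≤ j := by exact_mod_cast h4
  have hj0 : (0 : ℝ) < j := by linarith
  have hl2a := Real.log_two_gt_d9
  have hl2b := Real.log_two_lt_d9
  obtain ⟨L, hL⟩ : ∃ L : ℝ, L = j * Real.log 2 := ⟨_, rfl⟩
  rw [← hL] at hH1 hH2 ⊢
  have hL1 : 0.69 * j ≤ L := by rw [hL]; nlinarith
  have hL2 : L ≤ 0.7 * j := by rw [hL]; nlinarith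
  have hL0 : 0 < L := by linarith
  have hlog : Real.log j / 2 ≤ Real.log L := by
    have e : Real.log j / 2 = Real.log (Real.sqrt j) := by
      rw [Real.log_sqrt hj0.le]
    rw [e]
    refine Real.log_le_log (Real.sqrt_pos.2 hj0) ?_
    have h1 : Real.sqrt j ≤ j / 2 := by
      rw [Real.sqrt_le_left (by positivity)]
      nlinarith
    linarith
  have hH0 : (0 : ℝ) ≤ H := Nat.cast_nonneg _
  have hU3 : (H : ℝ) ≤ 1 / δ * (j : ℝ) ^ 2 := by
    refine hH2.trans ?_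
    have : L ^ 2 ≤ (j : ℝ) ^ 2 := by
      gcongr; linarith
    gcongr
  refine ⟨⟨?_, ?_, hU3⟩, ?_, ?_⟩
  · have h5 : (H : ℝ) ≤ (j : ℝ) ^ 3 := by
      refine hU3.trans ?_
      calc 1 / δ * (j : ℝ) ^ 2 ≤ j * (j : ℝ) ^ 2 := by gcongr
        _ = (j : ℝ) ^ 3 := by ring
    exact_mod_cast h5
  · rw [le_div_iff₀ hj0]
    have h5 : (Real.log j / 2) ^ 3 ≤ Real.log L ^ 3 := by gcongr
    have h6 : (0.69 * j) * (Real.log j / 2) ^ 3 ≤ H := by
      refine le_trans ?_ hH1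
      have : 0 ≤ (Real.log j / 2) ^ 3 := by positivity
      gcongr
    have h7 : Real.log j ^ 2 ≤ 0.69 * (Real.log j / 2) ^ 3 := by
      have e : (Real.log j / 2) ^ 3 = Real.log j * Real.log j ^ 2 / 8 := by ring
      rw [e]
      nlinarith [sq_nonneg (Real.log j)]
    nlinarith
  · refine Nat.le_floor ?_
    have h5 : ((2 * H / j / 4 : ℕ) : ℝ) ≤ ((2 * H / j : ℕ) : ℝ) / 4 := by
      have := @Nat.cast_div_le ℝ _ _ _ (2 * H / j) 4
      exact_mod_cast this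
    have h6 : ((2 * H / j : ℕ) : ℝ) ≤ (2 * H) / j := by
      have := @Nat.cast_div_le ℝ _ _ _ (2 * H) j
      push_cast at this
      exact this
    calc ((2 * H / j / 4 : ℕ) : ℝ) ≤ ((2 * H) / j) / 4 := by linarith
      _ = H / (2 * j) := by ring
      _ ≤ H / L := by gcongr; linarith
  · rw [Nat.le_div_iff_mul_le (by omega)]
    have h5 : ((⌊(H : ℝ) / L⌋₊ * j : ℕ) : ℝ) ≤ ((2 * H : ℕ) : ℝ) := by
      push_cast
      have h6 : (⌊(H : ℝ) / L⌋₊ : ℝ) ≤ H / L := Nat.floor_le (by positivity)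
      have h7 : (H : ℝ) / L ≤ H / (0.69 * j) := by gcongr
      calc (⌊(H : ℝ) / L⌋₊ : ℝ) * j ≤ H / (0.69 * j) * j := by
            gcongr; linarith
        _ = H / 0.69 := by field_simp
        _ ≤ 2 * H := by
            rw [div_le_iff₀ (by norm_num)]
            nlinarith
    exact_mod_cast h5

/-- **(A)** the transfer principle -/
theorem transfer (y : ℕ → ℕ) (b : ℕ → ℕ → ℕ) (hyw : ∀ᶠ j : ℕ in atTop, wj j ≤ y j) (hy : SubE y)
    (δ : ℝ) (hδ : 0 < δ) (hδ1 : δ ≤ 1) {Ω : Type}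
    [MeasurableSpace Ω] (μ : Measure Ω) [IsProbabilityMeasure μ] (A : ℕ → Ω → ℕ)
    (hA : RandomClasses μ A) (z : ℕ → ℕ) (hzm : Monotone z)
    (hz : Tendsto (fun n : ℕ => V (z n) * Real.log n) atTop (𝓝 1)) :
    ∀ᵐ ω ∂μ, ∀ᶠ j : ℕ in atTop, ∀ H : ℕ,
      (j * Real.log 2) * Real.log (j * Real.log 2) ^ 3 ≤ H →
      (H : ℝ) ≤ 1 / δ * (j * Real.log 2) ^ 2 →
      (ew (hyb z y b (fun p => A p ω)) j H : ℝ) ≤ Real.exp (δ * (H / (j * Real.log 2))) *
        Fw (b j) (y j) (V (z (2 ^ j)) / V (y j)) j H ∧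
      (Real.exp (δ * (H / (j * Real.log 2))) ≤ Fw (b j) (y j) (V (z (2 ^ j)) / V (y j)) j H →
        Real.exp (-(δ * (H / (j * Real.log 2)))) * Fw (b j) (y j) (V (z (2 ^ j)) / V (y j)) j H ≤
          ew (hyb z y b (fun p => A p ω)) j H) := by
  have hZ0 := V_pow_two z hz
  have hZ1 := V_pow_two' z hz
  have hyt : Tendsto y atTop atTop := tendsto_atTop_mono' atTop hyw wj_tendsto
  have hCδ : 1 ≤ 1 / δ := by rw [le_div_iff₀ hδ]; linarith
  -- the ratio of the two densities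
  have hrat : Tendsto (fun j : ℕ => V (z (2 ^ (j + 1))) / V (z (2 ^ j))) atTop (𝓝 1) := by
    have h1 := hZ1.div hZ0 one_ne_zero
    rw [div_one] at h1
    refine h1.congr' ?_
    filter_upwards [eventually_ge_atTop 1] with j hj
    have hj0 : (0 : ℝ) < j := by exact_mod_cast hj
    have hl2 : 0 < Real.log 2 := Real.log_pos (by norm_num)
    have := V_pos (z (2 ^ j))
    simp only [Pi.div_apply]
    field_simp
  have hvz : ∀ᶠ j : ℕ in atTop, (j : ℝ) * V (z (2 ^ j)) ≤ 2 := by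
    have hl2a := Real.log_two_gt_d9
    filter_upwards [hZ0.eventually (gt_mem_nhds (show (1 : ℝ) < 1.1 by norm_num))] with j h2
    have h3 : 0 ≤ (j : ℝ) * V (z (2 ^ j)) := mul_nonneg (Nat.cast_nonneg _) (V_pos _).le
    nlinarith
  filter_upwards [up_mix y b hyw hy (δ / 2) (1 / δ) (by positivity) (by linarith) (by positivity)
      μ A hA (fun j => z (2 ^ (j + 1))) hZ1,
    lo_mix y b hyw hy δ (1 / δ) hδ hδ1 hCδ μ A hA (fun j => z (2 ^ j)) hZ0] with ω hω1 hω2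
  filter_upwards [hω1, hω2, uok_of δ hδ hδ1, slack y hyt hy (δ / 2) (by positivity),
    hrat.eventually (lt_mem_nhds (show max (1 - (δ / 2) / 48) (23 / 24) < 1 by
      rw [max_lt_iff]; constructor <;> linarith)), hvz, eventually_ge_atTop 2] with
    j h1 h2 h3 h4 h5 h6 h7
  intro H hH1 hH2
  obtain ⟨hU, _, _⟩ := h3 H hH1 hH2
  have hj2 : (2 : ℝ) ≤ j := by exact_mod_cast h7
  have hj0 : (0 : ℝ) < j := by linarith
  have hl2a := Real.log_two_gt_d9
  have hl2b := Real.log_two_lt_d9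
  have hL0 : 0 < j * Real.log 2 := by positivity
  have hw : (H : ℝ) / j ≤ H / (j * Real.log 2) := by
    have : j * Real.log 2 ≤ j := by nlinarith
    gcongr
  have hw0 : 0 ≤ (H : ℝ) / j := by positivity
  have hVZ := V_pos (z (2 ^ j))
  have hVZ1 := V_pos (z (2 ^ (j + 1)))
  have hVy := V_pos (y j)
  obtain ⟨ρ, hρd⟩ : ∃ ρ : ℝ, ρ = V (z (2 ^ j)) / V (y j) := ⟨_, rfl⟩
  have hρ0 : 0 < ρ := by rw [hρd]; positivity
  have hρU : ρ * (H * V (y j)) ≤ 2 * ((H : ℝ) / j) := by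
    rw [hρd]
    calc V (z (2 ^ j)) / V (y j) * (H * V (y j)) = ((H : ℝ) / j) * (j * V (z (2 ^ j))) := by
          field_simp
      _ ≤ ((H : ℝ) / j) * 2 := by gcongr
      _ = _ := by ring
  have hF0 : 0 ≤ Fw (b j) (y j) ρ j H := sum_nonneg fun _ _ => (Real.exp_pos _).le
  have hk := h2 H hU
  rw [← hρd] at hk ⊢
  constructor
  · have g1 : (ew (hyb z y b (fun p => A p ω)) j H : ℝ) ≤
        (((Bd j H).filter (fun m => T1 (mix (y j) (b j) (fun p => A p ω)) (z (2 ^ (j + 1))) m H =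
          0)).card : ℝ) := by exact_mod_cast ew_le z y hzm b _ j H
    have g2 := h1 H hU
    obtain ⟨θ, hθ⟩ : ∃ θ : ℝ, θ = V (z (2 ^ (j + 1))) / V (z (2 ^ j)) := ⟨_, rfl⟩
    rw [← hθ] at h5
    have g3 : Fw (b j) (y j) (V (z (2 ^ (j + 1))) / V (y j)) j H =
        ∑ m ∈ Bd j H, Real.exp (-(θ * (ρ * T1 (b j) (y j) m H))) := by
      unfold Fw
      refine sum_congr rfl fun m _ => ?_
      congr 2
      rw [hθ, hρd]
      field_simp
    have g4 := h4 (b j) H ρ θ hU.u1 hU.u2 hρ0.le hρU ((le_max_left _ _).trans h5.le)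
      ((le_max_right _ _).trans h5.le)
    calc (ew (hyb z y b (fun p => A p ω)) j H : ℝ) ≤ _ := g1.trans g2
      _ ≤ Real.exp (δ / 2 * ((H : ℝ) / j)) *
          (Real.exp (δ / 2 * ((H : ℝ) / j)) * Fw (b j) (y j) ρ j H) := by
            rw [g3]; gcongr
      _ = Real.exp (δ * ((H : ℝ) / j)) * Fw (b j) (y j) ρ j H := by
            rw [← mul_assoc, ← Real.exp_add]; congr 2; ring
      _ ≤ Real.exp (δ * (H / (j * Real.log 2))) * Fw (b j) (y j) ρ j H := by gcongr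
  · intro hbig
    have g1 : (((Bd j H).filter (fun m => T1 (mix (y j) (b j) (fun p => A p ω)) (z (2 ^ j)) m H =
          0)).card : ℝ) ≤ (ew (hyb z y b (fun p => A p ω)) j H : ℝ) := by
      exact_mod_cast le_ew z y hzm b _ j H
    have g2 := hk (le_trans (Real.exp_le_exp.2 (by gcongr)) hbig)
    refine le_trans ?_ (g2.trans g1)
    have : Real.exp (-(δ * (H / (j * Real.log 2)))) ≤ Real.exp (-(δ * ((H : ℝ) / j))) := by
      refine Real.exp_le_exp.2 (neg_le_neg ?_)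
      gcongr
    gcongr

/-- **(B)** the lower bound for all classes of the small primes -/
theorem universal (y : ℕ → ℕ) (b : ℕ → ℕ → ℕ) (hy : SubE y)
    (δ : ℝ) (hδ : 0 < δ) (hδ1 : δ ≤ 1) {Ω : Type}
    [MeasurableSpace Ω] (μ : Measure Ω) [IsProbabilityMeasure μ] (A : ℕ → Ω → ℕ)
    (hA : RandomClasses μ A) (z : ℕ → ℕ) (hzm : Monotone z)
    (hz : Tendsto (fun n : ℕ => V (z n) * Real.log n) atTop (𝓝 1)) :
    ∀ᵐ ω ∂μ, ∀ᶠ j : ℕ in atTop, ∀ H : ℕ,
      (j * Real.log 2) * Real.log (j * Real.log 2) ^ 3 ≤ H →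
      (H : ℝ) ≤ 1 / δ * (j * Real.log 2) ^ 2 →
      (rm H ⌊(H : ℝ) / (j * Real.log 2)⌋₊ + δ) * H ≤ (1 - δ) * (j * Real.log 2) ^ 2 →
      2 ^ j * Real.exp (-((rm H ⌊(H : ℝ) / (j * Real.log 2)⌋₊ + δ) *
        (H / (j * Real.log 2)))) ≤ ew (hyb z y b (fun p => A p ω)) j H := by
  have hZ0 := V_pow_two z hz
  obtain ⟨C, hC, ζ0, hrp⟩ := rp_bdd
  have hCδ : 1 ≤ 1 / δ := by rw [le_div_iff₀ hδ]; linarith
  obtain ⟨ε, hε⟩ : ∃ ε : ℝ, ε = δ / (24 * (C + 1)) := ⟨_, rfl⟩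
  have hε0 : 0 < ε := by rw [hε]; positivity
  have hε2 : 24 * ε * (C + 1) = δ := by
    rw [hε]; field_simp
  have hεC : 24 * ε * C ≤ δ := by
    rw [← hε2]
    gcongr; linarith
  have hεδ : 24 * ε ≤ δ := by
    rw [← hε2]
    nlinarith [mul_pos hε0 hC]
  have hvz : ∀ᶠ j : ℕ in atTop, V (z (2 ^ j)) * (j * Real.log 2) ≤ 1 + ε := by
    filter_upwards [hZ0.eventually (gt_mem_nhds (show (1 : ℝ) < 1 + ε by linarith))] with j h2
    exact h2.le
  have hlogL : Tendsto (fun j : ℕ => Real.log ((j : ℝ) * Real.log 2)) atTop atTop :=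
    Real.tendsto_log_atTop.comp
      (tendsto_natCast_atTop_atTop.atTop_mul_const (Real.log_pos (by norm_num)))
  filter_upwards [many_mix y b hy (δ / 4) (1 / δ) (by positivity) (by linarith) hCδ μ A hA
    (fun j => z (2 ^ j)) hZ0] with ω hω
  filter_upwards [hω, uok_of δ hδ hδ1, hvz, hlogL.eventually_ge_atTop (ζ0 + 2), pow3_le,
    eventually_ge_atTop 2] with j h1 h2 h3 h4 h5 h6
  intro H hH1 hH2 hcost
  obtain ⟨hU, hζ1, hζ2⟩ := h2 H hH1 hH2
  have hj2 : (2 : ℝ) ≤ j := by exact_mod_cast h6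
  have hj0 : (0 : ℝ) < j := by linarith
  have hl2a := Real.log_two_gt_d9
  have hl2b := Real.log_two_lt_d9
  obtain ⟨L, hL⟩ : ∃ L : ℝ, L = j * Real.log 2 := ⟨_, rfl⟩
  have hL0 : 0 < L := by rw [hL]; positivity
  have hL1 : 1 ≤ L := by rw [hL]; nlinarith
  have hVZ := V_pos (z (2 ^ j))
  rw [← hL] at hH1 hH2 hζ1 hζ2 hcost h3 h4 ⊢
  obtain ⟨h, hh⟩ : ∃ h : ℝ, h = H / L := ⟨_, rfl⟩
  obtain ⟨ζ, hζ⟩ : ∃ ζ : ℕ, ζ = ⌊(H : ℝ) / L⌋₊ := ⟨_, rfl⟩
  rw [← hζ] at hζ1 hζ2 hcost ⊢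
  have hHL : (ζ0 : ℝ) + 2 ≤ h := by
    rw [hh, le_div_iff₀ hL0]
    refine le_trans ?_ hH1
    have hz0 : (0 : ℝ) ≤ ζ0 := Nat.cast_nonneg _
    have g1 : Real.log L ≤ Real.log L ^ 3 := le_self_pow₀ (by linarith) (by norm_num)
    calc ((ζ0 : ℝ) + 2) * L ≤ Real.log L ^ 3 * L := by gcongr; linarith
      _ = _ := by ring
  have hz0 : (0 : ℝ) ≤ ζ0 := Nat.cast_nonneg _
  have hh0 : 0 < h := by linarith
  have hζζ0 : ζ0 ≤ ζ := by
    rw [hζ, ← hh]
    exact Nat.le_floor (by linarith)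
  have hHh : (H : ℝ) = h * L := by rw [hh]; field_simp
  have hζH : ζ ≤ H := by
    have g1 : (ζ : ℝ) ≤ H := by
      rw [hζ]
      refine (Nat.floor_le (by positivity)).trans ?_
      rw [div_le_iff₀ hL0]
      have : (0 : ℝ) ≤ H := Nat.cast_nonneg _
      nlinarith
    exact_mod_cast g1
  have hHpos : 0 < H := by
    have : (0 : ℝ) < H := by rw [hHh]; positivity
    exact_mod_cast this
  obtain ⟨r, hr⟩ : ∃ r : ℝ, r = rm H ζ := ⟨_, rfl⟩
  have hr0 : 0 ≤ r := by rw [hr]; exact rm_nonneg H ζ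
  have hrC : r ≤ C := by
    rw [hr]
    exact (rm_le_rp H ζ).trans (hrp ζ hζζ0 H hHpos (hζH.trans (Nat.le_self_pow (by norm_num) H)))
  obtain ⟨u, hu⟩ : ∃ u : ℝ, u = H * V (z (2 ^ j)) := ⟨_, rfl⟩
  have hu1 : u ≤ (1 + ε) * h := by
    rw [hu, hHh]
    calc h * L * V (z (2 ^ j)) = h * (V (z (2 ^ j)) * L) := by ring
      _ ≤ h * (1 + ε) := by gcongr
      _ = _ := by ring
  have hexp : (r + δ / 4) * u ≤ (r + δ / 2) * h := by
    have k1 : (r + δ / 4) * u ≤ (r + δ / 4) * ((1 + ε) * h) :=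
      mul_le_mul_of_nonneg_left hu1 (by linarith)
    have k2 : r * (ε * h) ≤ C * (ε * h) := by gcongr
    have k3 : C * (ε * h) ≤ δ / 24 * h := by
      have : 24 * (C * (ε * h)) ≤ δ * h := by
        calc 24 * (C * (ε * h)) = (24 * ε * C) * h := by ring
          _ ≤ δ * h := by gcongr
      linarith
    have k4 : δ / 4 * (ε * h) ≤ δ / 24 * h := by
      have : ε ≤ 1 / 24 := by linarith
      have k5 : 0 ≤ δ * h := by positivity
      nlinarith
    nlinarith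
  rw [← hr] at hcost ⊢
  rw [← hh]
  have hc2 : (r + δ) * h ≤ (1 - δ) * L := by
    have : (r + δ) * (h * L) ≤ (1 - δ) * L ^ 2 := by rw [← hHh]; exact hcost
    have e : (r + δ) * (h * L) = ((r + δ) * h) * L := by ring
    have e2 : (1 - δ) * L ^ 2 = ((1 - δ) * L) * L := by ring
    rw [e, e2] at this
    exact le_of_mul_le_mul_right this hL0
  have hc3 : (r + δ / 4) * u ≤ (1 - δ / 4) * L := by
    calc (r + δ / 4) * u ≤ (r + δ / 2) * h := hexp
      _ ≤ (r + δ) * h := by gcongr; linarith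
      _ ≤ (1 - δ) * L := hc2
      _ ≤ (1 - δ / 4) * L := by gcongr; linarith
  obtain ⟨M, hM1, hM2, hM3⟩ := h1 2 (by norm_num) H hU ζ hζ1 hζ2 (by
    rw [← hr, ← hu, ← hL]; exact hc3)
  rw [← hr, ← hu] at hM2
  have hsub : M ⊆ (Bd j H).filter (fun m => T1 (mix (y j) (b j) (fun p => A p ω)) (z (2 ^ j)) m H
      = 0) := by
    intro m hm
    refine mem_filter.2 ⟨?_, hM3 m hm⟩
    have h8 := mem_Ico.1 (hM1 hm)
    have e1 : 2 ^ j = 2 * 2 ^ (j - 1) := by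
      rw [← pow_succ']; congr 1; omega
    have e2 : 2 ^ (j + 1) = 4 * 2 ^ (j - 1) := by
      rw [pow_succ, e1]; ring
    have e3 := hU.u1
    unfold Bd
    rw [mem_Ico]
    omega
  have hc4 : (M.card : ℝ) ≤ ew (hyb z y b (fun p => A p ω)) j H := by
    exact_mod_cast (card_le_card hsub).trans (le_ew z y hzm b _ j H)
  refine le_trans ?_ (hM2.trans hc4)
  have : -((r + δ) * h) ≤ -((r + δ / 4) * u) := by
    refine neg_le_neg (hexp.trans ?_)
    gcongr; linarith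
  gcongr

/-- **(C)** the constant `2 e ^ (- γ)` -/
theorem granville (y : ℕ → ℕ) (b : ℕ → ℕ → ℕ) (hy : SubE y)
    (c : ℝ) (hc : 0 < c) (hcg : c < 2 * Real.exp (-Real.eulerMascheroniConstant)) {Ω : Type}
    [MeasurableSpace Ω] (μ : Measure Ω) [IsProbabilityMeasure μ] (A : ℕ → Ω → ℕ)
    (hA : RandomClasses μ A) (z : ℕ → ℕ) (hzm : Monotone z)
    (hz : Tendsto (fun n : ℕ => V (z n) * Real.log n) atTop (𝓝 1)) :
    ∀ᵐ ω ∂μ, ∀ᶠ j : ℕ in atTop, 1 ≤ ew (hyb z y b (fun p => A p ω)) j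
      ⌊c * (j * Real.log 2) ^ 2⌋₊ := by
  obtain ⟨g, hg⟩ : ∃ g : ℝ, g = Real.exp (-Real.eulerMascheroniConstant) := ⟨_, rfl⟩
  rw [← hg] at hcg
  have hg0 : 0 < g := by rw [hg]; exact Real.exp_pos _
  -- choice of `δ`
  obtain ⟨δ, hδ0, hδ1, hδc, hδ⟩ : ∃ δ : ℝ, 0 < δ ∧ δ ≤ 1 ∧ δ * c ≤ 1 ∧
      (1 / (2 * g) + 2 * δ) * c ≤ 1 - δ := by
    have h1 : c / (2 * g) < 1 := by rw [div_lt_one (by positivity)]; exact hcg
    obtain ⟨δ, hδ⟩ : ∃ δ : ℝ, δ = min (min 1 (1 / c)) ((1 - c / (2 * g)) / (2 * c + 1)) :=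
      ⟨_, rfl⟩
    have h2 : 0 < (1 - c / (2 * g)) / (2 * c + 1) := div_pos (by linarith) (by linarith)
    have h3 : 0 < 1 / c := by positivity
    refine ⟨δ, by rw [hδ]; exact lt_min (lt_min one_pos h3) h2, ?_, ?_, ?_⟩
    · rw [hδ]; exact (min_le_left _ _).trans (min_le_left _ _)
    · have : δ ≤ 1 / c := by rw [hδ]; exact (min_le_left _ _).trans (min_le_right _ _)
      rwa [le_div_iff₀ hc] at this
    · have h4 : δ ≤ (1 - c / (2 * g)) / (2 * c + 1) := by rw [hδ]; exact min_le_right _ _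
      rw [le_div_iff₀ (by linarith)] at h4
      have e : (1 / (2 * g) + 2 * δ) * c = c / (2 * g) + δ * (2 * c) := by ring
      rw [e]; linarith
  have hjt : Tendsto (fun j : ℕ => (j : ℝ) * Real.log 2) atTop atTop :=
    tendsto_natCast_atTop_atTop.atTop_mul_const (Real.log_pos (by norm_num))
  -- `L (log L) ^ 3 + 1 ≤ c L ^ 2`
  have hev1 : ∀ᶠ L : ℝ in atTop, L * Real.log L ^ 3 + 1 ≤ c * L ^ 2 := by
    have h1 := (Real.isLittleO_pow_log_id_atTop (n := 3)).bound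
      (show (0 : ℝ) < c / 2 by positivity)
    filter_upwards [h1, eventually_ge_atTop (max 1 (2 / c))] with L h2 h3
    have hL1 : 1 ≤ L := (le_max_left _ _).trans h3
    have hL2 : 2 / c ≤ L := (le_max_right _ _).trans h3
    rw [div_le_iff₀ hc] at hL2
    simp only [id_eq, Real.norm_eq_abs] at h2
    rw [abs_of_nonneg (pow_nonneg (Real.log_nonneg hL1) 3), abs_of_pos (by linarith)] at h2
    have h4 : L * Real.log L ^ 3 ≤ L * (c / 2 * L) := by gcongr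
    nlinarith
  -- the interval sieve
  have hrm : ∀ᶠ L : ℝ in atTop, ∀ H : ℕ, c * L ^ 2 - 1 ≤ H → (H : ℝ) ≤ c * L ^ 2 →
      rm H ⌊(H : ℝ) / L⌋₊ ≤ 1 / (2 * g) + δ := by
    have h1 := rm_sq δ (min (1 / (2 * c)) (c / 4)) hδ0 (lt_min (by positivity) (by positivity))
    rw [← hg] at h1
    obtain ⟨ζ0, h2⟩ := eventually_atTop.1 h1
    filter_upwards [eventually_ge_atTop (max ((ζ0 + 2) * (2 / c) + 4 / c) 4)] with L hL
    intro H hH1 hH2
    have hL4 : 4 ≤ L := (le_max_right _ _).trans hL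
    have hLb : (ζ0 + 2) * (2 / c) + 4 / c ≤ L := (le_max_left _ _).trans hL
    have hL0 : 0 < L := by linarith
    have hz0 : (0 : ℝ) ≤ ζ0 := Nat.cast_nonneg _
    have hcL : 4 ≤ c * L := by
      have : 4 / c ≤ L := by
        have : 0 ≤ (ζ0 + 2) * (2 / c) := by positivity
        linarith
      rw [div_le_iff₀ hc] at this; linarith
    have hcLζ : (ζ0 : ℝ) + 2 ≤ c * L / 2 := by
      have h3 : (ζ0 + 2) * (2 / c) ≤ L := by
        have : 0 ≤ 4 / c := by positivity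
        linarith
      have h4 : ((ζ0 + 2) * (2 / c)) * c ≤ L * c := by gcongr
      have e : ((ζ0 + 2) * (2 / c)) * c = (ζ0 + 2) * 2 := by field_simp
      rw [e] at h4
      linarith
    have hH3 : c * L ^ 2 / 2 ≤ H := by
      have : 1 ≤ c * L ^ 2 / 2 := by nlinarith
      linarith
    obtain ⟨x, hx⟩ : ∃ x : ℝ, x = (H : ℝ) / L := ⟨_, rfl⟩
    have hHx : (H : ℝ) = x * L := by rw [hx]; field_simp
    rw [← hx]
    have hx1 : c * L / 2 ≤ x := by
      rw [hx, le_div_iff₀ hL0]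
      calc c * L / 2 * L = c * L ^ 2 / 2 := by ring
        _ ≤ H := hH3
    have hx2 : x ≤ c * L := by
      rw [hx, div_le_iff₀ hL0]
      calc (H : ℝ) ≤ c * L ^ 2 := hH2
        _ = _ := by ring
    have hx0 : 2 ≤ x := by linarith
    have hf1 := Nat.floor_le (show 0 ≤ x by linarith)
    have hf2 := Nat.lt_floor_add_one x
    have hf3 : x / 2 ≤ ⌊x⌋₊ := by linarith
    refine h2 _ (Nat.le_floor (by linarith)) H ?_ ?_
    · -- c' ζ² ≤ H
      calc min (1 / (2 * c)) (c / 4) * (⌊x⌋₊ : ℝ) ^ 2 ≤ 1 / (2 * c) * x ^ 2 := by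
            have : min (1 / (2 * c)) (c / 4) ≤ 1 / (2 * c) := min_le_left _ _
            gcongr
        _ ≤ 1 / (2 * c) * (x * (c * L)) := by
            have : x ^ 2 ≤ x * (c * L) := by nlinarith
            gcongr
        _ = x * L / 2 := by field_simp
        _ ≤ H := by rw [hHx]; nlinarith
    · calc min (1 / (2 * c)) (c / 4) * (H : ℝ) ≤ c / 4 * H := by
            have : min (1 / (2 * c)) (c / 4) ≤ c / 4 := min_le_right _ _
            gcongr
        _ = x * (c * L / 2) / 2 := by rw [hHx]; ring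
        _ ≤ x * x / 2 := by
            have : x * (c * L / 2) ≤ x * x := by gcongr
            linarith
        _ ≤ (⌊x⌋₊ : ℝ) ^ 2 := by nlinarith
  filter_upwards [universal y b hy δ hδ0 hδ1 μ A hA z hzm hz] with ω hω
  filter_upwards [hω, hjt.eventually hev1, hjt.eventually hrm, eventually_ge_atTop 2] with
    j h1 h2 h3 h4
  have hj2 : (2 : ℝ) ≤ j := by exact_mod_cast h4
  have hl2a := Real.log_two_gt_d9
  obtain ⟨L, hL⟩ : ∃ L : ℝ, L = j * Real.log 2 := ⟨_, rfl⟩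
  have hL0 : 0 < L := by rw [hL]; positivity
  rw [← hL] at h1 h2 h3 ⊢
  obtain ⟨H, hH⟩ : ∃ H : ℕ, H = ⌊c * L ^ 2⌋₊ := ⟨_, rfl⟩
  rw [← hH]
  have hH2 : (H : ℝ) ≤ c * L ^ 2 := by rw [hH]; exact Nat.floor_le (by positivity)
  have hH1 : c * L ^ 2 - 1 ≤ H := by
    rw [hH]
    have := Nat.lt_floor_add_one (c * L ^ 2)
    linarith
  have hr := h3 H hH1 hH2
  have hcost : (rm H ⌊(H : ℝ) / L⌋₊ + δ) * H ≤ (1 - δ) * L ^ 2 := by
    have hr0 := rm_nonneg H ⌊(H : ℝ) / L⌋₊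
    calc (rm H ⌊(H : ℝ) / L⌋₊ + δ) * H ≤ (1 / (2 * g) + 2 * δ) * (c * L ^ 2) := by
          have h5 : rm H ⌊(H : ℝ) / L⌋₊ + δ ≤ 1 / (2 * g) + 2 * δ := by linarith
          have h6 : 0 ≤ rm H ⌊(H : ℝ) / L⌋₊ + δ := by linarith
          have h7 : (0 : ℝ) ≤ H := Nat.cast_nonneg _
          exact mul_le_mul h5 hH2 h7 (h6.trans h5)
      _ = ((1 / (2 * g) + 2 * δ) * c) * L ^ 2 := by ring
      _ ≤ (1 - δ) * L ^ 2 := by gcongr
  have h5 := h1 H (by linarith) (by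
    refine hH2.trans ?_
    have : c ≤ 1 / δ := by rw [le_div_iff₀ hδ0]; linarith
    gcongr) hcost
  have h6 : (0 : ℝ) < ew (hyb z y b (fun p => A p ω)) j H := lt_of_lt_of_le (by positivity) h5
  have h7 : 0 < ew (hyb z y b (fun p => A p ω)) j H := by exact_mod_cast h6
  omega

end Pool.Agent.H532.HY
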