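import Mathlib
import Pool.Agent.H532.HY.Basic

/-!
The hypotheses on the levels.
-/

namespace Pool.Agent.H532.HY

open Finset Filter Pool.Agent.H532.RM Pool.Agent.H532.LG
open scoped Topology

lemma subE_of {y : ℕ → ℕ} (h : Tendsto (fun j : ℕ => Real.log (y j) / j) atTop (𝓝 0)) :
    SubE y := by
  intro c hc
  filter_upwards [h.eventually (gt_mem_nhds hc), eventually_ge_atTop 1] with j h1 h2
  have hj0 : (0 : ℝ) < j := by exact_mod_cast h2
  rw [div_lt_iff₀ hj0] at h1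
  rcases Nat.eq_zero_or_pos (y j) with h3 | h3
  · rw [h3, Nat.cast_zero]
    exact (Real.exp_pos _).le
  · have h4 : (0 : ℝ) < y j := by exact_mod_cast h3
    rw [← Real.exp_log h4]
    exact Real.exp_le_exp.2 h1.le

lemma wj_le_of {y : ℕ → ℕ} {ε : ℝ} (hε : 0 < ε)
    (h : ∀ᶠ j : ℕ in atTop, ((j : ℝ) * Real.log 2) ^ (1 + ε) ≤ y j) :
    ∀ᶠ j : ℕ in atTop, wj j ≤ y j := by
  have hjt : Tendsto (fun j : ℕ => (j : ℝ)) atTop atTop := tendsto_natCast_atTop_atTop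
  have hl2a := Real.log_two_gt_d9
  have h1 : ∀ᶠ j : ℕ in atTop, 8 * 2 ^ (1 + ε) * Real.log j ^ 3 ≤ (j : ℝ) ^ ε := by
    have h2 : Tendsto (fun x : ℝ => Real.log x ^ (3 : ℝ) / x ^ ε) atTop (𝓝 0) :=
      (isLittleO_log_rpow_rpow_atTop 3 hε).tendsto_div_nhds_zero
    have h3 := (h2.comp hjt).eventually
      (gt_mem_nhds (show (0 : ℝ) < 1 / (8 * 2 ^ (1 + ε)) by positivity))
    filter_upwards [h3, eventually_ge_atTop 1] with j h4 h5
    have hj0 : (0 : ℝ) < j := by exact_mod_cast h5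
    simp only [Function.comp] at h4
    rw [div_lt_iff₀ (by positivity), show (3 : ℝ) = ((3 : ℕ) : ℝ) by norm_num,
      Real.rpow_natCast] at h4
    have h6 : 8 * 2 ^ (1 + ε) * Real.log j ^ 3 ≤
        8 * 2 ^ (1 + ε) * (1 / (8 * 2 ^ (1 + ε)) * (j : ℝ) ^ ε) := by gcongr
    refine h6.trans (le_of_eq ?_)
    field_simp
  filter_upwards [h, h1, eventually_ge_atTop 2] with j h2 h3 h4
  have hj2 : (2 : ℝ) ≤ j := by exact_mod_cast h4
  have hj0 : (0 : ℝ) < j := by linarith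
  have h5 : (Nat.log 2 j : ℝ) ≤ 2 * Real.log j := by
    have h9 : (Nat.log 2 j : ℝ) * Real.log 2 ≤ Real.log j := by
      rw [← Real.log_pow]
      refine Real.log_le_log (by positivity) ?_
      exact_mod_cast Nat.pow_log_le_self 2 (by omega)
    have h0 : (0 : ℝ) ≤ Nat.log 2 j := by positivity
    nlinarith
  have hlj0 : 0 ≤ Real.log j := Real.log_nonneg (by linarith)
  have h6 : ((wj j : ℕ) : ℝ) ≤ y j := by
    refine le_trans ?_ h2
    have e1 : ((wj j : ℕ) : ℝ) = j * (Nat.log 2 j : ℝ) ^ 3 := by unfold wj; push_cast; rfl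
    rw [e1]
    have e2 : (j : ℝ) / 2 ≤ (j : ℝ) * Real.log 2 := by nlinarith
    have e3 : ((j : ℝ) / 2) ^ (1 + ε) ≤ ((j : ℝ) * Real.log 2) ^ (1 + ε) :=
      Real.rpow_le_rpow (by positivity) e2 (by positivity)
    refine le_trans ?_ e3
    rw [Real.div_rpow hj0.le (by norm_num), le_div_iff₀ (by positivity)]
    have e4 : (j : ℝ) ^ (1 + ε) = j * (j : ℝ) ^ ε := by rw [Real.rpow_add hj0, Real.rpow_one]
    rw [e4]
    calc (j : ℝ) * (Nat.log 2 j : ℝ) ^ 3 * 2 ^ (1 + ε) ≤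
        (j : ℝ) * (2 * Real.log j) ^ 3 * 2 ^ (1 + ε) := by gcongr
      _ = j * (8 * 2 ^ (1 + ε) * Real.log j ^ 3) := by ring
      _ ≤ j * (j : ℝ) ^ ε := by gcongr
  exact_mod_cast h6

end Pool.Agent.H532.HY
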