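import Mathlib
import Pool.Agent.H532.HY.Final

/-!
The lower bound for the largest gap up to `x`.
-/

namespace Pool.Agent.H532.HY

open Finset MeasureTheory Function ProbabilityTheory Filter Pool.Agent.H532.RM Pool.Agent.H532.LG
open scoped ENNReal Topology

theorem granville_real (y : ℕ → ℕ) (b : ℕ → ℕ → ℕ) (hy : SubE y)
    (c : ℝ) (hcg : c < 2 * Real.exp (-Real.eulerMascheroniConstant)) {Ω : Type}
    [MeasurableSpace Ω] (μ : Measure Ω) [IsProbabilityMeasure μ] (A : ℕ → Ω → ℕ)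
    (hA : RandomClasses μ A) (z : ℕ → ℕ) (hzm : Monotone z)
    (hz : Tendsto (fun n : ℕ => V (z n) * Real.log n) atTop (𝓝 1)) :
    ∀ᵐ ω ∂μ, ∀ᶠ x : ℝ in atTop, ∃ m : ℕ, x / 4 ≤ m ∧ (m : ℝ) + c * Real.log x ^ 2 ≤ x ∧
      ∀ n ∈ hyb z y b (fun p => A p ω), (m : ℝ) < n → (m : ℝ) + c * Real.log x ^ 2 < n := by
  obtain ⟨g, hg⟩ : ∃ g : ℝ, g = 2 * Real.exp (-Real.eulerMascheroniConstant) := ⟨_, rfl⟩
  have hg0 : 0 < g := by rw [hg]; positivity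
  rw [← hg] at hcg
  obtain ⟨c1, hc1⟩ : ∃ c1 : ℝ, c1 = max c 0 := ⟨_, rfl⟩
  have hc10 : 0 ≤ c1 := by rw [hc1]; exact le_max_right _ _
  have hcc1 : c ≤ c1 := by rw [hc1]; exact le_max_left _ _
  have hc1g : c1 < g := by rw [hc1]; exact max_lt hcg hg0
  obtain ⟨c', hc'⟩ : ∃ c' : ℝ, c' = (c1 + g) / 2 := ⟨_, rfl⟩
  have hc'1 : c1 < c' := by rw [hc']; linarith
  have hc'2 : c' < g := by rw [hc']; linarith
  have hc'0 : 0 < c' := by linarith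
  filter_upwards [granville y b hy c' hc'0 (by rw [← hg]; exact hc'2) μ A hA z hzm hz] with ω hω
  -- `c1 ((j + 2) log 2) ^ 2 + 1 ≤ c' (j log 2) ^ 2`
  have hev : ∀ᶠ j : ℕ in atTop, c1 * ((j + 2) * Real.log 2) ^ 2 + 1 ≤
      c' * ((j : ℝ) * Real.log 2) ^ 2 := by
    obtain ⟨B, hB⟩ : ∃ B : ℝ, B = (8 * c1 + 4) / (c' - c1) + 8 := ⟨_, rfl⟩
    filter_upwards [(tendsto_natCast_atTop_atTop (R := ℝ)).eventually_ge_atTop B] with j hj
    have hd : 0 < c' - c1 := by linarith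
    have hq : 0 ≤ (8 * c1 + 4) / (c' - c1) := by positivity
    have hj8 : (8 : ℝ) ≤ j := by linarith
    have h1 : (8 * c1 + 4) / (c' - c1) ≤ j := by linarith
    rw [div_le_iff₀ hd] at h1
    have hl2a := Real.log_two_gt_d9
    have hl2 : (0.48 : ℝ) ≤ Real.log 2 ^ 2 := by nlinarith
    have e1 : c1 * ((j + 2) * Real.log 2) ^ 2 = c1 * (j + 2) ^ 2 * Real.log 2 ^ 2 := by ring
    have e2 : c' * ((j : ℝ) * Real.log 2) ^ 2 = c' * (j : ℝ) ^ 2 * Real.log 2 ^ 2 := by ring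
    rw [e1, e2]
    have h2 : c1 * (j + 2) ^ 2 + 3 ≤ c' * (j : ℝ) ^ 2 := by
      have h3 : (8 * c1 + 4) * j ≤ (c' - c1) * (j : ℝ) ^ 2 := by
        calc (8 * c1 + 4) * (j : ℝ) ≤ (j * (c' - c1)) * j := by gcongr
          _ = _ := by ring
      have h4 : 0 ≤ c1 * (j : ℝ) := by positivity
      nlinarith
    nlinarith
  obtain ⟨J, hJ⟩ := eventually_atTop.1 (hω.and hev)
  filter_upwards [eventually_ge_atTop ((2 : ℝ) ^ (J + 2))] with x hx
  have hx1 : (1 : ℝ) ≤ x := le_trans (one_le_pow₀ (by norm_num)) hx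
  have hx0 : 0 < x := by linarith
  obtain ⟨k, hk⟩ : ∃ k, k = Nat.log 2 ⌊x⌋₊ := ⟨_, rfl⟩
  have hkJ : J + 2 ≤ k := by
    rw [hk]
    refine Nat.le_log_of_pow_le (by norm_num) (Nat.le_floor ?_)
    push_cast; exact hx
  obtain ⟨j, rfl⟩ : ∃ j, k = j + 1 := ⟨k - 1, by omega⟩
  have hfl : ⌊x⌋₊ ≠ 0 := (Nat.floor_pos.2 hx1).ne'
  have hX2 : (2 : ℝ) ^ (j + 1) ≤ x := by
    have h3 : 2 ^ (j + 1) ≤ ⌊x⌋₊ := by rw [hk]; exact Nat.pow_log_le_self 2 hfl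
    have h4 : ((2 ^ (j + 1) : ℕ) : ℝ) ≤ ⌊x⌋₊ := by exact_mod_cast h3
    push_cast at h4
    exact h4.trans (Nat.floor_le hx0.le)
  have hX3 : x < 2 ^ (j + 2) := by
    have h3 : ⌊x⌋₊ < 2 ^ (j + 1 + 1) := by
      rw [hk]; exact Nat.lt_pow_succ_log_self (by norm_num) _
    rw [Nat.floor_lt hx0.le] at h3
    push_cast at h3
    exact h3
  obtain ⟨h1, h2⟩ := hJ j (by omega)
  have hlog : Real.log x ≤ (j + 2) * Real.log 2 := by
    have := Real.log_le_log hx0 hX3.le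
    rw [Real.log_pow] at this
    push_cast at this
    exact this
  have hlogx : 0 ≤ Real.log x := Real.log_nonneg hx1
  obtain ⟨H, hH⟩ : ∃ H : ℕ, H = ⌊c' * (j * Real.log 2) ^ 2⌋₊ := ⟨_, rfl⟩
  rw [← hH] at h1
  have hHr : c * Real.log x ^ 2 ≤ H := by
    have h3 := Nat.lt_floor_add_one (c' * (j * Real.log 2) ^ 2)
    rw [← hH] at h3
    have h4 : c * Real.log x ^ 2 ≤ c1 * ((j + 2) * Real.log 2) ^ 2 := by
      calc c * Real.log x ^ 2 ≤ c1 * Real.log x ^ 2 := by gcongr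
        _ ≤ _ := by gcongr
    linarith
  have hne : {m : ℕ | 2 ^ j ≤ m ∧ m + H < 2 ^ (j + 1) ∧
      ∀ n ∈ hyb z y b (fun p => A p ω), m < n → m + H < n}.Nonempty := by
    by_contra hcon
    rw [Set.not_nonempty_iff_eq_empty] at hcon
    unfold ew at h1
    rw [hcon, Set.ncard_empty] at h1
    omega
  obtain ⟨m, hm1, hm2, hm3⟩ := hne
  have hm1r : (2 : ℝ) ^ j ≤ m := by exact_mod_cast hm1
  have hm2r : (m : ℝ) + H < 2 ^ (j + 1) := by exact_mod_cast hm2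
  refine ⟨m, ?_, by linarith, fun n hn hmn => ?_⟩
  · have e : (2 : ℝ) ^ (j + 2) = 4 * 2 ^ j := by ring
    rw [e] at hX3
    linarith
  · have h3 := hm3 n hn (by exact_mod_cast hmn)
    have h4 : (m : ℝ) + H < n := by exact_mod_cast h3
    linarith

end Pool.Agent.H532.HY
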